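import Mathlib

set_option autoImplicit false

namespace Pool.Agent.Helper50.Canon

open Finset Function

/-- exactly two of three values are distinct -/
def Two {α : Type} (a b c : α) : Prop :=
  (a = b ∧ b ≠ c) ∨ (b = c ∧ a ≠ b) ∨ (a = c ∧ a ≠ b)

/-- every unit 3-term progression has exactly two colours -/
def Bi {ι α : Type} [Fintype ι] (φ : (ι → ℝ) → α) : Prop :=
  ∀ x u : ι → ℝ, ∑ i, u i ^ 2 = 1 → Two (φ x) (φ (x + u)) (φ (x + (u + u)))

/-- changing the sign of a coordinate with value in `D` is invisible, as long as all other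
coordinates are in `Λ` -/
def Flip {κ α : Type} [DecidableEq κ] (D : List ℝ) (Λ : Finset ℝ) (φ : (κ → ℝ) → α) : Prop :=
  ∀ d ∈ D, ∀ (j : κ) (l : κ → ℝ), (∀ i, l i ∈ Λ) → φ (update l j d) = φ (update l j (-d))

theorem Bi.comp {ι κ α : Type} [Fintype ι] [Fintype κ] {φ : (ι → ℝ) → α} (hφ : Bi φ)
    (h : ι → ℝ) (L : (κ → ℝ) →ₗ[ℝ] (ι → ℝ)) (hL : ∀ l, ∑ i, (L l i) ^ 2 = ∑ i, (l i) ^ 2) :
    Bi (fun l => φ (h + L l)) := by
  intro x u hu
  have := hφ (h + L x) (L u) (by rw [hL, hu])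
  simpa [map_add, add_assoc] using this

end Pool.Agent.Helper50.Canon
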