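import Mathlib

/-!
Triangle Ramsey theorem and its product version, plus a counting lemma.
-/

set_option autoImplicit false

namespace Pool.Agent.Helper50.Canon

open Finset

/-- Triangle Ramsey theorem, for colours in a finite set `C`. -/
theorem tri_aux (K : Type) [DecidableEq K] (k : ℕ) :
    ∃ M : ℕ, ∀ (c : ℕ → ℕ → K) (C : Finset K), C.card ≤ k → ∀ S : Finset ℕ, M ≤ S.card →
      (∀ a ∈ S, ∀ b ∈ S, a < b → c a b ∈ C) →
      ∃ a ∈ S, ∃ b ∈ S, ∃ e ∈ S, a < b ∧ b < e ∧ c a b = c b e ∧ c a b = c a e := by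
  induction k with
  | zero =>
    refine ⟨2, fun c C hC S hS h => ?_⟩
    have hC' : C = ∅ := by simpa using hC
    obtain ⟨a, ha, b, hb, hab⟩ := Finset.one_lt_card.mp hS
    rcases lt_or_gt_of_ne hab with h1 | h1
    · have := h a ha b hb h1; simp [hC'] at this
    · have := h b hb a ha h1; simp [hC'] at this
  | succ k ih =>
    obtain ⟨M, hM⟩ := ih
    refine ⟨(k + 1) * M + 2, fun c C hC S hS h => ?_⟩
    have hne : S.Nonempty := by
      rw [← Finset.card_pos]; omega
    set a := S.min' hne with ha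
    have haS : a ∈ S := Finset.min'_mem _ _
    have hmin : ∀ b ∈ S.erase a, a < b := by
      intro b hb
      rw [Finset.mem_erase] at hb
      exact lt_of_le_of_ne (Finset.min'_le _ _ hb.2) (Ne.symm hb.1)
    have hcard : (S.erase a).card + 1 = S.card := Finset.card_erase_add_one haS
    have hmaps : ∀ b ∈ S.erase a, c a b ∈ C := fun b hb =>
      h a haS b (Finset.mem_of_mem_erase hb) (hmin b hb)
    have hCne : C.Nonempty := by
      have : (S.erase a).Nonempty := by
        rw [← Finset.card_pos]; omega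
      obtain ⟨b, hb⟩ := this
      exact ⟨_, hmaps b hb⟩
    have hle : C.card * M ≤ (S.erase a).card := by
      have : C.card * M ≤ (k + 1) * M := Nat.mul_le_mul_right _ hC
      omega
    obtain ⟨j, hj, hjc⟩ := Finset.exists_le_card_fiber_of_mul_le_card_of_maps_to hmaps hCne hle
    set S' := (S.erase a).filter (fun x => c a x = j) with hS'
    have hS'S : ∀ x ∈ S', x ∈ S ∧ a < x ∧ c a x = j := by
      intro x hx
      rw [hS', Finset.mem_filter] at hx
      exact ⟨Finset.mem_of_mem_erase hx.1, hmin x hx.1, hx.2⟩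
    by_cases hex : ∃ b ∈ S', ∃ e ∈ S', b < e ∧ c b e = j
    · obtain ⟨b, hb, e, he, hbe, hcj⟩ := hex
      refine ⟨a, haS, b, (hS'S b hb).1, e, (hS'S e he).1, (hS'S b hb).2.1, hbe, ?_, ?_⟩
      · rw [(hS'S b hb).2.2, hcj]
      · rw [(hS'S b hb).2.2, (hS'S e he).2.2]
    · push Not at hex
      have hcard' : (C.erase j).card ≤ k := by
        have := Finset.card_erase_add_one hj
        omega
      obtain ⟨x, hx, y, hy, z, hz, hxy, hyz, h1, h2⟩ := hM c (C.erase j) hcard' S' hjc (by
        intro x hx y hy hxy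
        exact Finset.mem_erase.mpr ⟨hex x hx y hy hxy, h x (hS'S x hx).1 y (hS'S y hy).1 hxy⟩)
      exact ⟨x, (hS'S x hx).1, y, (hS'S y hy).1, z, (hS'S z hz).1, hxy, hyz, h1, h2⟩

/-- Triangle Ramsey theorem: in a finite colouring of the pairs of `{0, …, M - 1}` there is a
monochromatic triangle. -/
theorem tri (K : Type) [Finite K] :
    ∃ M : ℕ, ∀ c : ℕ → ℕ → K, ∃ a b e, a < b ∧ b < e ∧ e < M ∧ c a b = c b e ∧ c a b = c a e := by
  classical
  have := Fintype.ofFinite K
  obtain ⟨M, hM⟩ := tri_aux K (Fintype.card K)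
  refine ⟨M, fun c => ?_⟩
  obtain ⟨a, _, b, _, e, he, hab, hbe, h1, h2⟩ := hM c Finset.univ le_rfl (Finset.range M)
    (by simp) (fun _ _ _ _ _ => Finset.mem_univ _)
  exact ⟨a, b, e, hab, hbe, Finset.mem_range.mp he, h1, h2⟩

/-- the order-preserving pairs in `{0,1,2}` -/
def IsPair (p : Fin 3 × Fin 3) : Prop := p.1 < p.2

/-- Product triangle Ramsey theorem. -/
theorem prodRamsey_fin (s : ℕ) : ∀ (K : Type) [Finite K], ∃ M : ℕ, ∀ F : (Fin s → ℕ × ℕ) → K,
    ∃ t : Fin s → Fin 3 → ℕ, (∀ i, StrictMono (t i)) ∧ (∀ i a, t i a < M) ∧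
      ∃ k, ∀ p : Fin s → Fin 3 × Fin 3, (∀ i, IsPair (p i)) →
        F (fun i => (t i (p i).1, t i (p i).2)) = k := by
  induction s with
  | zero =>
    intro K _
    refine ⟨0, fun F => ⟨fun i => i.elim0, fun i => i.elim0, fun i => i.elim0, F (fun i => i.elim0),
      fun p _ => ?_⟩⟩
    congr 1
    ext i
    exact i.elim0
    exact i.elim0
  | succ s ih =>
    intro K _
    obtain ⟨M₁, h₁⟩ := ih K
    obtain ⟨M₂, h₂⟩ := tri ((Fin s → Fin M₁ × Fin M₁) → K)
    refine ⟨max M₁ M₂, fun F => ?_⟩
    obtain ⟨a, b, e, hab, hbe, heM, hc1, hc2⟩ := h₂ (fun x y q =>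
      F (Fin.cons (x, y) (fun i => (((q i).1 : ℕ), ((q i).2 : ℕ)))))
    obtain ⟨t, htm, htM, k, hk⟩ := h₁ (fun q => F (Fin.cons (a, b) q))
    refine ⟨Fin.cons ![a, b, e] t, ?_, ?_, k, ?_⟩
    · intro i
      refine Fin.cases ?_ ?_ i
      · rw [Fin.cons_zero]
        intro x y hxy
        fin_cases x <;> fin_cases y <;> simp_all
        · exact hab.trans hbe
      · intro i; rw [Fin.cons_succ]; exact htm i
    · intro i
      refine Fin.cases ?_ ?_ i
      · intro x
        rw [Fin.cons_zero]
        refine lt_of_lt_of_le ?_ (le_max_right _ _)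
        fin_cases x <;> simp <;> omega
      · intro i x; rw [Fin.cons_succ]; exact lt_of_lt_of_le (htM i x) (le_max_left _ _)
    · intro p hp
      have h3 := hk (fun i => p i.succ) (fun i => hp i.succ)
      rw [← h3]
      have key : ∀ x y : ℕ, (fun q : Fin s → Fin M₁ × Fin M₁ =>
          F (Fin.cons (x, y) (fun i => (((q i).1 : ℕ), ((q i).2 : ℕ))))) =
          (fun q : Fin s → Fin M₁ × Fin M₁ =>
          F (Fin.cons (a, b) (fun i => (((q i).1 : ℕ), ((q i).2 : ℕ))))) →
          F (Fin.cons (x, y) (fun i => (t i (p i.succ).1, t i (p i.succ).2))) =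
          F (Fin.cons (a, b) (fun i => (t i (p i.succ).1, t i (p i.succ).2))) := by
        intro x y hxy
        exact congrFun hxy (fun i => (⟨t i (p i.succ).1, htM i _⟩, ⟨t i (p i.succ).2, htM i _⟩))
      have heq : (fun i => ((Fin.cons ![a, b, e] t : Fin (s+1) → Fin 3 → ℕ) i (p i).1,
            (Fin.cons ![a, b, e] t : Fin (s+1) → Fin 3 → ℕ) i (p i).2)) =
          (Fin.cons ((![a, b, e] : Fin 3 → ℕ) (p 0).1, (![a, b, e] : Fin 3 → ℕ) (p 0).2)
            (fun i => (t i (p i.succ).1, t i (p i.succ).2)) : Fin (s+1) → ℕ × ℕ) := by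
        funext i
        refine Fin.cases ?_ ?_ i
        · simp
        · intro i; simp
      rw [heq]
      have hp0 := hp 0
      unfold IsPair at hp0
      generalize p 0 = p0 at hp0
      obtain ⟨x, y⟩ := p0
      apply key
      have hxy : x < y := hp0
      have h12 : (x = 0 ∧ y = 1) ∨ (x = 0 ∧ y = 2) ∨ (x = 1 ∧ y = 2) := by
        clear hp0 h3
        revert hxy
        revert x y
        decide
      rcases h12 with ⟨rfl, rfl⟩ | ⟨rfl, rfl⟩ | ⟨rfl, rfl⟩
      · rfl
      · exact hc2.symm
      · exact hc1.symm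

/-- Product triangle Ramsey theorem over a finite index type. -/
theorem prodRamsey (S : Type) [Fintype S] (K : Type) [Finite K] :
    ∃ M : ℕ, ∀ F : (S → ℕ × ℕ) → K,
    ∃ t : S → Fin 3 → ℕ, (∀ i, StrictMono (t i)) ∧ (∀ i a, t i a < M) ∧
      ∃ k, ∀ p : S → Fin 3 × Fin 3, (∀ i, IsPair (p i)) →
        F (fun i => (t i (p i).1, t i (p i).2)) = k := by
  classical
  obtain ⟨M, hM⟩ := prodRamsey_fin (Fintype.card S) K
  let e := Fintype.equivFin S
  refine ⟨M, fun F => ?_⟩
  obtain ⟨t, h1, h2, k, h3⟩ := hM (fun q => F (fun i => q (e i)))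
  refine ⟨fun i => t (e i), fun i => h1 _, fun i a => h2 _ _, k, fun p hp => ?_⟩
  have := h3 (fun i => p (e.symm i)) (fun i => hp _)
  simpa using this

/-- Counting lemma: if every condition `c ∈ C` excludes, for each choice of the coordinates other
than `jj c`, at most one value of the coordinate `jj c`, and there are more values than conditions,
some choice satisfies all conditions. -/
theorem exists_good {κ C : Type} [Fintype κ] [DecidableEq κ] [Fintype C] (B : ℕ)
    (hB : Fintype.card C < B) (jj : C → κ) (bad : C → (κ → Fin B) → Prop)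
    (h : ∀ c b b', bad c b → bad c b' → (∀ i, i ≠ jj c → b i = b' i) → b = b') :
    ∃ b, ∀ c, ¬ bad c b := by
  classical
  by_contra hcon
  push Not at hcon
  have h1 : ∀ c : C, (Finset.univ.filter (fun b => bad c b)).card * B ≤
      Fintype.card (κ → Fin B) := by
    intro c
    have : (Finset.univ.filter (fun b => bad c b)).card * B =
        ((Finset.univ.filter (fun b => bad c b)) ×ˢ (Finset.univ : Finset (Fin B))).card := by
      rw [Finset.card_product, Finset.card_univ, Fintype.card_fin]
    rw [this, ← Finset.card_univ]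
    apply Finset.card_le_card_of_injOn (fun p => Function.update p.1 (jj c) p.2)
    · intro p _; exact Finset.mem_coe.mpr (Finset.mem_univ _)
    · rintro ⟨b, x⟩ hb ⟨b', x'⟩ hb' heq
      simp only [Finset.coe_product, Finset.coe_filter, Finset.mem_univ, true_and,
        Finset.coe_univ, Set.mem_prod, Set.mem_ofPred_eq, Set.mem_univ, and_true] at hb hb'
      simp only at heq
      have hx : x = x' := by
        have := congrFun heq (jj c)
        simpa using this
      have hbb : b = b' := by
        apply h c b b' hb hb'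
        intro i hi
        have := congrFun heq i
        simpa [hi] using this
      rw [hx, hbb]
  have h2 : (Finset.univ : Finset (κ → Fin B)).card ≤
      ∑ c : C, (Finset.univ.filter (fun b => bad c b)).card := by
    have hsub : (Finset.univ : Finset (κ → Fin B)) ⊆
        Finset.univ.biUnion (fun c : C => Finset.univ.filter (fun b => bad c b)) := by
      intro b _
      obtain ⟨c, hc⟩ := hcon b
      simp only [Finset.mem_biUnion, Finset.mem_filter, Finset.mem_univ, true_and]
      exact ⟨c, hc⟩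
    exact (Finset.card_le_card hsub).trans Finset.card_biUnion_le
  have h3 : Fintype.card (κ → Fin B) * B ≤ Fintype.card C * Fintype.card (κ → Fin B) := by
    calc Fintype.card (κ → Fin B) * B ≤
        (∑ c : C, (Finset.univ.filter (fun b => bad c b)).card) * B :=
          Nat.mul_le_mul_right _ h2
      _ = ∑ c : C, (Finset.univ.filter (fun b => bad c b)).card * B := by rw [Finset.sum_mul]
      _ ≤ ∑ _c : C, Fintype.card (κ → Fin B) := Finset.sum_le_sum (fun c _ => h1 c)
      _ = Fintype.card C * Fintype.card (κ → Fin B) := by simp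
  have hBpos : 0 < B := by omega
  have h4 : 0 < Fintype.card (κ → Fin B) := by
    have : Nonempty (Fin B) := ⟨⟨0, hBpos⟩⟩
    exact Fintype.card_pos
  rw [mul_comm] at h3
  have := Nat.le_of_mul_le_mul_right h3 h4
  omega

end Pool.Agent.Helper50.Canon
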