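import Mathlib
import Pool.Agent.Helper50.Canon.Defs
import Pool.Agent.Helper50.Canon.Ramsey

set_option autoImplicit false

namespace Pool.Agent.Helper50.Canon

open Finset Function

variable {S : Type} {M : ℕ}

/-- letter `v s` at the first position of the pair `π s`, `- v s` at the second, `-δ` elsewhere -/
noncomputable def W (M : ℕ) (δ : ℝ) (π : S → ℕ × ℕ) (v : S → ℝ) : S × Fin M → ℝ := fun p =>
  if (p.2 : ℕ) = (π p.1).1 then v p.1 else if (p.2 : ℕ) = (π p.1).2 then - v p.1 else -δ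

/-- pair choice inside the triples `t` -/
def P (t : S → Fin 3 → ℕ) (p : S → Fin 3 × Fin 3) : S → ℕ × ℕ :=
  fun s => (t s (p s).1, t s (p s).2)

/-- the default pair choice -/
def P0 (t : S → Fin 3 → ℕ) : S → ℕ × ℕ := fun s => (t s 0, t s 1)

/-- homogeneity -/
structure Hom (φ : (S × Fin M → ℝ) → ℝ) (δ : ℝ) (Λ : Finset ℝ) (t : S → Fin 3 → ℕ) : Prop where
  mono : ∀ s, StrictMono (t s)
  lt : ∀ s a, t s a < M
  hom : ∀ (p : S → Fin 3 × Fin 3), (∀ s, IsPair (p s)) →
    ∀ v w : S → ℝ, (∀ s, v s ∈ Λ) → (∀ s, w s ∈ Λ) →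
    (φ (W M δ (P t p) v) = φ (W M δ (P t p) w) ↔ φ (W M δ (P0 t) v) = φ (W M δ (P0 t) w))

theorem exists_hom (S : Type) [Fintype S] (Λ : Finset ℝ) :
    ∃ M : ℕ, ∀ (φ : (S × Fin M → ℝ) → ℝ) (δ : ℝ), ∃ t, Hom φ δ Λ t := by
  obtain ⟨M, hM⟩ := prodRamsey S ((S → Λ) → (S → Λ) → Prop)
  refine ⟨M, fun φ δ => ?_⟩
  obtain ⟨t, h1, h2, k, hk⟩ := hM (fun π v w =>
    φ (W M δ π (fun s => (v s : ℝ))) = φ (W M δ π (fun s => (w s : ℝ))))
  refine ⟨t, h1, h2, fun p hp v w hv hw => ?_⟩
  have e1 := hk p hp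
  have e2 := hk (fun _ => (0, 1)) (fun _ => by unfold IsPair; decide)
  have e3 := congrFun (congrFun (e1.trans e2.symm) (fun s => ⟨v s, hv s⟩)) (fun s => ⟨w s, hw s⟩)
  simp only at e3
  exact Iff.of_eq e3

/-- replace the letter `δ` by `-δ` -/
noncomputable def neg (δ x : ℝ) : ℝ := if x = δ then -δ else x

section
variable [DecidableEq S] {φ : (S × Fin M → ℝ) → ℝ} {δ : ℝ} {Λ : Finset ℝ} {t : S → Fin 3 → ℕ}

/-- moving slot `i` is invisible -/
def E (φ : (S × Fin M → ℝ) → ℝ) (δ : ℝ) (t : S → Fin 3 → ℕ) (i : S) (w : S → ℝ) : Prop :=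
  φ (W M δ (P0 t) (update w i δ)) = φ (W M δ (P0 t) (update w i (-δ)))

omit [DecidableEq S] in
theorem Hom.t01 (H : Hom φ δ Λ t) (s : S) : t s 0 ≠ t s 1 := (H.mono s (by decide)).ne
omit [DecidableEq S] in
theorem Hom.t12 (H : Hom φ δ Λ t) (s : S) : t s 1 ≠ t s 2 := (H.mono s (by decide)).ne
omit [DecidableEq S] in
theorem Hom.t02 (H : Hom φ δ Λ t) (s : S) : t s 0 ≠ t s 2 := (H.mono s (by decide)).ne

theorem upd_mem {w : S → ℝ} (hw : ∀ s, w s ∈ Λ) {i : S} {x : ℝ} (hx : x ∈ Λ) :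
    ∀ s, update w i x s ∈ Λ := by
  intro s
  by_cases h : s = i
  · subst h; simpa using hx
  · simpa [h] using hw s

/-- third position trick -/
theorem E_of_eq (H : Hom φ δ Λ t) (hδ : δ ∈ Λ) (i : S) (v w : S → ℝ)
    (hv : ∀ s, v s ∈ Λ) (hw : ∀ s, w s ∈ Λ) (hvi : v i = δ) (hwi : w i = -δ)
    (h : φ (W M δ (P0 t) v) = φ (W M δ (P0 t) w)) : E φ δ t i w := by
  have h01 := H.t01; have h12 := H.t12; have h02 := H.t02
  -- pair choices
  set p1 : S → Fin 3 × Fin 3 := fun s => if s = i then (0, 2) else (0, 1) with hp1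
  set p2 : S → Fin 3 × Fin 3 := fun s => if s = i then (1, 2) else (0, 1) with hp2
  have hp1' : ∀ s, IsPair (p1 s) := by
    intro s; rw [hp1]; dsimp only; split_ifs <;> (unfold IsPair; decide)
  have hp2' : ∀ s, IsPair (p2 s) := by
    intro s; rw [hp2]; dsimp only; split_ifs <;> (unfold IsPair; decide)
  have e1 : W M δ (P t p1) v = W M δ (P0 t) v := by
    funext ⟨s, z⟩
    by_cases hs : s = i
    · subst hs
      simp only [W, P, P0, hp1, if_true, hvi]
      split_ifs <;> rfl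
    · simp [W, P, P0, hp1, hs] <;> rfl
  have e2 := (H.hom p1 hp1' v w hv hw).mpr h
  rw [e1, h] at e2
  -- e2 : φ (W P0 w) = φ (W (P p1) w)
  have e3 : W M δ (P t p2) (update w i δ) = W M δ (P0 t) w := by
    funext ⟨s, z⟩
    by_cases hs : s = i
    · subst hs
      simp only [W, P, P0, hp2, if_true, hwi, update_self, neg_neg]
      by_cases hz : (z : ℕ) = t s 0
      · simp [hz, h01 s, h02 s]
      · by_cases hz1 : (z : ℕ) = t s 1
        · simp [hz1, (h01 s).symm]
        · simp [hz, hz1]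
    · simp [W, P, P0, hp2, hs] <;> rfl
  have e4 : W M δ (P t p2) (update w i (-δ)) = W M δ (P t p1) w := by
    funext ⟨s, z⟩
    by_cases hs : s = i
    · subst hs
      simp only [W, P, hp1, hp2, if_true, hwi, update_self, neg_neg]
      by_cases hz : (z : ℕ) = t s 0
      · simp [hz, h01 s, h02 s]
      · by_cases hz1 : (z : ℕ) = t s 1
        · simp [hz1, (h01 s).symm, h12 s]
        · simp [hz, hz1]
    · simp [W, P, hp1, hp2, hs]
  have hnδ : -δ ∈ Λ := hwi ▸ hw i
  have e5 := (H.hom p2 hp2' (update w i δ) (update w i (-δ)) (upd_mem hw hδ) (upd_mem hw hnδ)).mp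
    (by rw [e3, e4]; exact e2)
  exact e5

theorem E_neg_iff (H : Hom φ δ Λ t) (hδ : δ ∈ Λ) (hδ' : -δ ∈ Λ) (i : S) (w : S → ℝ)
    (hw : ∀ s, w s ∈ Λ) : E φ δ t i w ↔ E φ δ t i (fun s => neg δ (w s)) := by
  have h01 := H.t01; have h12 := H.t12; have h02 := H.t02
  classical
  set p : S → Fin 3 × Fin 3 := fun s => if s ≠ i ∧ w s = δ then (1, 2) else (0, 1) with hp
  have hp' : ∀ s, IsPair (p s) := by
    intro s; rw [hp]; dsimp only; split_ifs <;> (unfold IsPair; decide)
  have key : ∀ x : ℝ, W M δ (P t p) (update w i x) =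
      W M δ (P0 t) (update (fun s => neg δ (w s)) i x) := by
    intro x
    funext ⟨s, z⟩
    by_cases hs : s = i
    · subst hs
      simp [W, P, P0, hp]
    · by_cases hws : w s = δ
      · simp only [W, P, P0, hp, ne_eq, hs, not_false_eq_true, hws, and_self, if_true,
          update_of_ne, neg]
        by_cases hz : (z : ℕ) = t s 0
        · simp [hz, h01 s, h02 s]
        · by_cases hz1 : (z : ℕ) = t s 1
          · simp [hz1, (h01 s).symm]
          · simp [hz, hz1]
      · simp [W, P, P0, hp, hs, hws, neg]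
  have := H.hom p hp' (update w i δ) (update w i (-δ)) (upd_mem hw hδ) (upd_mem hw hδ')
  rw [key, key] at this
  exact this.symm

/-- two configurations in the same context, different at a visible slot, have different colours -/
theorem ne_of_visible (H : Hom φ δ Λ t) (hδ : δ ∈ Λ) (hδ' : -δ ∈ Λ) (i : S) (w : S → ℝ)
    (hw : ∀ s, w s ∈ Λ) (hE : ¬ E φ δ t i w) (v v' : S → ℝ) (hv : ∀ s, v s ∈ Λ)
    (hv' : ∀ s, v' s ∈ Λ) (hvi : v i = δ) (hvi' : v' i = -δ)
    (hn : ∀ s, neg δ (v' s) = neg δ (w s)) :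
    φ (W M δ (P0 t) v) ≠ φ (W M δ (P0 t) v') := by
  intro h
  have h1 := E_of_eq H hδ i v v' hv hv' hvi hvi' h
  rw [E_neg_iff H hδ hδ' i v' hv'] at h1
  rw [E_neg_iff H hδ hδ' i w hw] at hE
  apply hE
  have : (fun s => neg δ (v' s)) = (fun s => neg δ (w s)) := funext hn
  rw [this] at h1
  exact h1

theorem sum_slot {r0 r1 : ℕ} {M : ℕ} (h0 : r0 < M) (h1 : r1 < M) (hne : r0 ≠ r1) (x y : ℝ) :
    ∑ z : Fin M, (if (z : ℕ) = r0 then x else if (z : ℕ) = r1 then y else 0) ^ 2 =
      x ^ 2 + y ^ 2 := by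
  have : ∀ z : Fin M, (if (z : ℕ) = r0 then x else if (z : ℕ) = r1 then y else 0) ^ 2 =
      (if z = (⟨r0, h0⟩ : Fin M) then x ^ 2 else 0) + (if z = (⟨r1, h1⟩ : Fin M) then y ^ 2 else 0) := by
    intro z
    simp only [Fin.ext_iff]
    by_cases hz : (z : ℕ) = r0
    · have : (z : ℕ) ≠ r1 := by rw [hz]; exact hne
      simp [hz, hne]
    · by_cases hz1 : (z : ℕ) = r1
      · simp [hz1, hne.symm]
      · simp [hz, hz1]
  simp only [this, Finset.sum_add_distrib]
  simp

/-- Rectangle trick: at most one visible slot in every context with enough active slots. -/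
theorem rectangle [Fintype S] (hφ : Bi φ) (H : Hom φ δ Λ t) (hδ : δ ∈ Λ) (hδ' : -δ ∈ Λ)
    (hδ0 : 0 < δ) (K₀ : ℕ) (hK : 2 * δ ^ 2 * K₀ = 1) (hK2 : 2 ≤ K₀) (w : S → ℝ)
    (hw : ∀ s, w s ∈ Λ) (hcard : K₀ ≤ (univ.filter (fun s => w s = -δ)).card) (i i' : S)
    (hi : w i = -δ) (hi' : w i' = -δ) (hE : ¬ E φ δ t i w) (hE' : ¬ E φ δ t i' w) : i = i' := by
  by_contra hne
  have h01 := H.t01
  have hdd : (-δ : ℝ) ≠ δ := by linarith
  set Act := univ.filter (fun s => w s = -δ) with hAct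
  have hsub : ({i, i'} : Finset S) ⊆ Act := by
    intro s hs
    simp only [mem_insert, mem_singleton] at hs
    rcases hs with rfl | rfl <;> simp [hAct, hi, hi']
  obtain ⟨U, hU1, hU2, hU3⟩ := Finset.exists_subsuperset_card_eq hsub
    (by rw [Finset.card_pair hne]; exact hK2) hcard
  have hiU : i ∈ U := hU1 (by simp)
  have hiU' : i' ∈ U := hU1 (by simp)
  have hUw : ∀ s ∈ U, w s = -δ := fun s hs => by
    have := hU2 hs; simpa [hAct] using this
  -- configurations indexed by subsets of U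
  let X : Finset S → (S → ℝ) := fun A s => if s ∈ A then δ else w s
  have hXmem : ∀ A s, X A s ∈ Λ := by
    intro A s; simp only [X]; split_ifs
    · exact hδ
    · exact hw s
  have hXneg : ∀ A, A ⊆ U → ∀ s, neg δ (X A s) = neg δ (w s) := by
    intro A hA s
    simp only [X]
    split_ifs with hs
    · rw [hUw s (hA hs)]
      simp [neg, hdd]
    · rfl
  have hvis : ∀ A B : Finset S, B ⊆ U → i ∈ A → i ∉ B →
      φ (W M δ (P0 t) (X A)) ≠ φ (W M δ (P0 t) (X B)) := by
    intro A B hB hiA hiB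
    exact ne_of_visible H hδ hδ' i w hw hE _ _ (hXmem A) (hXmem B) (by simp [X, hiA])
      (by simp [X, hiB, hi]) (hXneg B hB)
  have hvis' : ∀ A B : Finset S, B ⊆ U → i' ∈ A → i' ∉ B →
      φ (W M δ (P0 t) (X A)) ≠ φ (W M δ (P0 t) (X B)) := by
    intro A B hB hiA hiB
    exact ne_of_visible H hδ hδ' i' w hw hE' _ _ (hXmem A) (hXmem B) (by simp [X, hiA])
      (by simp [X, hiB, hi']) (hXneg B hB)
  -- unit vectors
  let e : (S → ℝ) → S × Fin M → ℝ := fun σ p =>
    if p.1 ∈ U then σ p.1 * (if (p.2 : ℕ) = t p.1 0 then δ else if (p.2 : ℕ) = t p.1 1 then -δ else 0)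
      else 0
  have he : ∀ σ : S → ℝ, (∀ s, σ s ^ 2 = 1) → ∑ p, e σ p ^ 2 = 1 := by
    intro σ hσ
    rw [Fintype.sum_prod_type]
    have : ∀ s, ∑ z : Fin M, e σ (s, z) ^ 2 = if s ∈ U then 2 * δ ^ 2 else 0 := by
      intro s
      by_cases hs : s ∈ U
      · simp only [e, hs, if_true, mul_pow, hσ s, one_mul]
        rw [sum_slot (H.lt s 0) (H.lt s 1) (h01 s)]
        ring
      · simp [e, hs]
    simp only [this]
    rw [Finset.sum_ite_mem, Finset.univ_inter, Finset.sum_const, hU3, nsmul_eq_mul, ← hK]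
    ring
  let σ1 : S → ℝ := fun _ => 1
  let σ2 : S → ℝ := fun s => if s = i' then -1 else 1
  have T1 := hφ (W M δ (P0 t) (X ∅)) (e σ1) (he σ1 (by intro s; simp [σ1]))
  have T2 := hφ (W M δ (P0 t) (X {i'})) (e σ2) (he σ2 (by
    intro s; simp only [σ2]; split_ifs <;> norm_num))
  have q1 : W M δ (P0 t) (X ∅) + (e σ1 + e σ1) = W M δ (P0 t) (X U) := by
    funext ⟨s, z⟩
    simp only [Pi.add_apply, W, P0, X, e, σ1, Finset.notMem_empty, if_false, one_mul]
    by_cases hs : s ∈ U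
    · rw [hUw s hs]
      simp only [hs, if_true]
      by_cases hz : (z : ℕ) = t s 0
      · simp only [hz, if_true]; ring
      · by_cases hz1 : (z : ℕ) = t s 1
        · simp only [hz1, (h01 s).symm, if_true, if_false]; ring
        · simp only [hz, hz1, if_false]; ring
    · simp [hs] <;> rfl
  have q2 : W M δ (P0 t) (X {i'}) + (e σ2 + e σ2) = W M δ (P0 t) (X (U.erase i')) := by
    funext ⟨s, z⟩
    simp only [Pi.add_apply, W, P0, X, e, σ2, Finset.mem_singleton, Finset.mem_erase]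
    by_cases hs : s ∈ U
    · by_cases hsi : s = i'
      · subst hsi
        simp only [hs, if_true, ne_eq, not_true_eq_false, false_and, if_false, hi']
        split_ifs <;> ring
      · rw [hUw s hs]
        simp only [hs, hsi, if_true, if_false, ne_eq, not_false_eq_true, true_and]
        split_ifs <;> ring
    · have hsi : s ≠ i' := fun h => hs (h ▸ hiU')
      simp [hs, hsi]
  have q3 : W M δ (P0 t) (X ∅) + e σ1 = W M δ (P0 t) (X {i'}) + e σ2 := by
    funext ⟨s, z⟩
    simp only [Pi.add_apply, W, P0, X, e, σ1, σ2, Finset.notMem_empty, if_false, one_mul,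
      Finset.mem_singleton]
    by_cases hs : s ∈ U
    · by_cases hsi : s = i'
      · subst hsi
        simp only [hs, if_true, hi']
        split_ifs <;> ring
      · simp [hs, hsi] <;> rfl
    · have hsi : s ≠ i' := fun h => hs (h ▸ hiU')
      simp [hs, hsi] <;> rfl
  rw [q1] at T1
  rw [q2, ← q3] at T2
  have n1 : φ (W M δ (P0 t) (X U)) ≠ φ (W M δ (P0 t) (X ∅)) :=
    hvis U ∅ (by simp) hiU (by simp)
  have n2 : φ (W M δ (P0 t) (X (U.erase i'))) ≠ φ (W M δ (P0 t) (X {i'})) :=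
    hvis _ _ (by simpa using hiU') (by simp [hiU, hne]) (by simpa using hne)
  have n3 : φ (W M δ (P0 t) (X {i'})) ≠ φ (W M δ (P0 t) (X ∅)) :=
    hvis' _ _ (by simp) (by simp) (by simp)
  have n4 : φ (W M δ (P0 t) (X (U.erase i'))) ≠ φ (W M δ (P0 t) (X ∅)) :=
    hvis _ _ (by simp) (by simp [hiU, hne]) (by simp)
  have n5 : φ (W M δ (P0 t) (X U)) ≠ φ (W M δ (P0 t) (X {i'})) :=
    hvis _ _ (by simpa using hiU') hiU (by simpa using hne)
  have n6 : φ (W M δ (P0 t) (X U)) ≠ φ (W M δ (P0 t) (X (U.erase i'))) :=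
    hvis' _ _ (Finset.erase_subset _ _) hiU' (by simp)
  generalize φ (W M δ (P0 t) (X U)) = xU at *
  generalize φ (W M δ (P0 t) (X ∅)) = x0 at *
  generalize φ (W M δ (P0 t) (X {i'})) = x1 at *
  generalize φ (W M δ (P0 t) (X (U.erase i'))) = x2 at *
  generalize φ (W M δ (P0 t) (X ∅) + e σ1) = y at *
  unfold Two at T1 T2
  grind

/-- moving several invisible slots -/
theorem move_set (H : Hom φ δ Λ t) (hδ : δ ∈ Λ) (hδ' : -δ ∈ Λ) (hδ0 : 0 < δ) (v : S → ℝ)
    (hv : ∀ s, v s ∈ Λ) (U : Finset S) (hU : ∀ s ∈ U, v s = δ)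
    (hE : ∀ s ∈ U, E φ δ t s (fun s => neg δ (v s))) :
    φ (W M δ (P0 t) v) = φ (W M δ (P0 t) (fun s => if s ∈ U then -δ else v s)) := by
  have hdd : (-δ : ℝ) ≠ δ := by linarith
  induction U using Finset.induction_on with
  | empty => simp
  | insert a U haU ih =>
    rw [ih (fun s hs => hU s (Finset.mem_insert_of_mem hs))
      (fun s hs => hE s (Finset.mem_insert_of_mem hs))]
    set v' : S → ℝ := fun s => if s ∈ U then -δ else v s with hv'
    have hv'mem : ∀ s, v' s ∈ Λ := by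
      intro s; rw [hv']; dsimp only; split_ifs
      · exact hδ'
      · exact hv s
    have h1 : E φ δ t a v' := by
      rw [E_neg_iff H hδ hδ' a v' hv'mem]
      have : (fun s => neg δ (v' s)) = (fun s => neg δ (v s)) := by
        funext s
        rw [hv']; dsimp only
        split_ifs with hs
        · rw [hU s (Finset.mem_insert_of_mem hs)]
          simp [neg, hdd]
        · rfl
      rw [this]
      exact hE a (Finset.mem_insert_self _ _)
    unfold E at h1
    have e1 : update v' a δ = v' := by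
      rw [Function.update_eq_self_iff]
      simp [hv', haU, hU a (Finset.mem_insert_self _ _)]
    have e2 : update v' a (-δ) = (fun s => if s ∈ insert a U then -δ else v s) := by
      funext s
      by_cases hs : s = a
      · subst hs; simp
      · simp [hv', hs, Finset.mem_insert]
    rw [e1, e2] at h1
    exact h1

end

end Pool.Agent.Helper50.Canon
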