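import Mathlib
import Pool.Agent.Helper50.Canon.Step

set_option autoImplicit false

namespace Pool.Agent.Helper50.Canon

open Finset Function

theorem flip_set {ι : Type} [DecidableEq ι] {D : List ℝ} {Λ : Finset ℝ} {φ : (ι → ℝ) → ℝ}
    (hF : Flip D Λ φ) (e : ℝ) (he : e ∈ D) (U : Finset ι) :
    ∀ μ ν : ι → ℝ, (∀ p, μ p ∈ Λ) → (∀ p, ν p ∈ Λ) → (∀ p, p ∉ U → μ p = ν p) →
      (∀ p, μ p = ν p ∨ (μ p = e ∧ ν p = -e) ∨ (μ p = -e ∧ ν p = e)) → φ μ = φ ν := by
  induction U using Finset.induction_on with
  | empty =>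
    intro μ ν _ _ h _
    have : μ = ν := funext (fun p => h p (by simp))
    rw [this]
  | insert a U haU ih =>
    intro μ ν hμ hν h hc
    have h1 : φ μ = φ (update ν a (μ a)) := by
      apply ih μ (update ν a (μ a)) hμ
      · intro p
        by_cases hp : p = a
        · subst hp; simpa using hμ p
        · simpa [hp] using hν p
      · intro p hp
        by_cases hpa : p = a
        · subst hpa; simp
        · simpa [hpa] using h p (by simp [hpa, hp])
      · intro p
        by_cases hpa : p = a
        · subst hpa; simp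
        · simpa [hpa] using hc p
    rw [h1]
    rcases hc a with h2 | ⟨h2, h3⟩ | ⟨h2, h3⟩
    · rw [h2, update_eq_self]
    · have := hF e he a ν hν
      rw [h2, this, ← h3, update_eq_self]
    · have := hF e he a ν hν
      rw [h2, ← this, ← h3, update_eq_self]

theorem step (κ : Type) [Fintype κ] [DecidableEq κ] (Λ : Finset ℝ) (d : ℝ) (a b : ℕ)
    (ha : 0 < a) (hb : 0 < b) (hd : 0 < d) (hd2 : d ^ 2 = a / b) (D₀ : List ℝ) (r : ℝ)
    (hr : 0 < r) (hr2 : r ^ 2 = 1 / (4 * a)) :
    ∃ (ι' : Type) (_ : Fintype ι') (_ : DecidableEq ι') (Λ' : Finset ℝ),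
      ∀ φ : (ι' → ℝ) → ℝ, Bi φ → Flip (D₀.map (r * ·)) Λ' φ →
        ∃ (h : ι' → ℝ) (L : (κ → ℝ) →ₗ[ℝ] (ι' → ℝ)),
          (∀ l, ∑ i, (L l i) ^ 2 = ∑ i, (l i) ^ 2) ∧
          Flip (d :: D₀) Λ (fun l => φ (h + L l)) := by
  classical
  have haR : (0 : ℝ) < a := by exact_mod_cast ha
  have hbR : (0 : ℝ) < b := by exact_mod_cast hb
  set δ : ℝ := r * d with hδdef
  have hδ0 : 0 < δ := mul_pos hr hd
  have hδ2 : δ ^ 2 = 1 / (4 * b) := by
    rw [hδdef, mul_pow, hr2, hd2]; field_simp
  set K₀ : ℕ := 2 * b with hK₀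
  have hK : 2 * δ ^ 2 * (K₀ : ℝ) = 1 := by
    rw [hδ2, hK₀]; push_cast; field_simp; norm_num
  have hK2 : 2 ≤ K₀ := by omega
  set B : ℕ := Fintype.card (κ × (κ → Λ)) + 1 + K₀ with hB
  let S : Type := κ × Fin B × Fin (2 * a)
  set Λs : Finset ℝ := Λ.image (r * ·) ∪ {δ, -δ} with hΛs
  have hδΛ : δ ∈ Λs := by simp [hΛs]
  have hδΛ' : -δ ∈ Λs := by simp [hΛs]
  set Λ' : Finset ℝ := Λs ∪ Λs.image (fun x => -x) ∪ (D₀.map (r * ·)).toFinset ∪
    (D₀.map (r * ·)).toFinset.image (fun x => -x) with hΛ'
  obtain ⟨M, hM⟩ := exists_hom S Λs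
  refine ⟨S × Fin M, inferInstance, inferInstance, Λ', fun φ hφ hF => ?_⟩
  obtain ⟨t, H⟩ := hM φ δ
  have h01 := H.t01
  have hdd : (-δ : ℝ) ≠ δ := by linarith
  -- letter assignments
  let v : (κ → Fin B) → (κ → ℝ) → S → ℝ := fun bb l s => if s.2.1 = bb s.1 then r * l s.1 else δ
  have hvmem : ∀ bb (l : κ → ℝ) (j : κ), (∀ i, l i ∈ Λ) → ∀ s, v bb (update l j d) s ∈ Λs := by
    intro bb l j hl s
    simp only [v]
    split_ifs
    · by_cases hs : s.1 = j
      · rw [hs, update_self]; exact hδΛ
      · rw [update_of_ne hs]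
        exact Finset.mem_union_left _ (Finset.mem_image_of_mem _ (hl _))
    · exact hδΛ
  let ctx : (κ → Fin B) → κ × (κ → Λ) → S → ℝ := fun bb c s =>
    neg δ (v bb (update (fun i => (c.2 i : ℝ)) c.1 d) s)
  have hctxmem : ∀ bb c s, ctx bb c s ∈ Λs := by
    intro bb c s
    simp only [ctx, neg]
    split_ifs
    · exact hδΛ'
    · exact hvmem bb _ c.1 (fun i => (c.2 i).2) s
  have hctxj : ∀ bb (c : κ × (κ → Λ)) (s : S), s.1 = c.1 → ctx bb c s = -δ := by
    intro bb c s hs
    simp only [ctx, v, hs, update_self]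
    have : (if s.2.1 = bb c.1 then r * d else δ) = δ := by split_ifs <;> rfl
    rw [this]
    simp [neg]
  let bad : κ × (κ → Λ) → (κ → Fin B) → Prop := fun c bb =>
    ∃ i : Fin (2 * a), ¬ E φ δ t ((c.1, bb c.1, i) : S) (ctx bb c)
  obtain ⟨bb, hbb⟩ := exists_good B (by omega : Fintype.card (κ × (κ → Λ)) < B)
    (fun c => c.1) bad (by
      rintro c b₁ b₂ ⟨i₁, h₁⟩ ⟨i₂, h₂⟩ heq
      have hctx : ctx b₂ c = ctx b₁ c := by
        funext s
        by_cases hs : s.1 = c.1
        · rw [hctxj _ _ _ hs, hctxj _ _ _ hs]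
        · simp only [ctx, v]
          rw [heq s.1 hs]
      rw [hctx] at h₂
      have hcard : K₀ ≤ (univ.filter (fun s : S => ctx b₁ c s = -δ)).card := by
        have hinj : (univ : Finset (Fin B)).card ≤
            (univ.filter (fun s : S => ctx b₁ c s = -δ)).card := by
          apply Finset.card_le_card_of_injOn (fun β : Fin B => ((c.1, β, ⟨0, by omega⟩) : S))
          · intro β _
            simp only [coe_filter, mem_univ, true_and, Set.mem_ofPred_eq]
            exact hctxj _ _ _ rfl
          · intro β _ β' _ h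
            exact (Prod.mk.inj (Prod.mk.inj h).2).1
        rw [Finset.card_univ, Fintype.card_fin] at hinj
        omega
      have := rectangle hφ H hδΛ hδΛ' hδ0 K₀ hK hK2 (ctx b₁ c) (hctxmem _ _) hcard
        (c.1, b₁ c.1, i₁) (c.1, b₂ c.1, i₂) (hctxj _ _ _ rfl) (hctxj _ _ _ rfl) h₁ h₂
      have hb12 : b₁ c.1 = b₂ c.1 := (Prod.mk.inj (Prod.mk.inj this).2).1
      funext i
      by_cases hi : i = c.1
      · rw [hi, hb12]
      · exact heq i hi)
  -- the isometric embedding
  let L : (κ → ℝ) →ₗ[ℝ] (S × Fin M → ℝ) :=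
    { toFun := fun l p => if p.1.2.1 = bb p.1.1 then
        (if (p.2 : ℕ) = t p.1 0 then r * l p.1.1 else
          if (p.2 : ℕ) = t p.1 1 then -(r * l p.1.1) else 0) else 0
      map_add' := by
        intro l l'; funext p
        simp only [Pi.add_apply]
        split_ifs <;> ring
      map_smul' := by
        intro c l; funext p
        simp only [Pi.smul_apply, smul_eq_mul, RingHom.id_apply]
        split_ifs <;> ring }
  have hLapp : ∀ l p, L l p = if p.1.2.1 = bb p.1.1 then
        (if (p.2 : ℕ) = t p.1 0 then r * l p.1.1 else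
          if (p.2 : ℕ) = t p.1 1 then -(r * l p.1.1) else 0) else 0 := fun _ _ => rfl
  have hLW : ∀ l, W M δ (P0 t) (v bb 0) + L l = W M δ (P0 t) (v bb l) := by
    intro l
    funext p
    rw [Pi.add_apply, hLapp]
    simp only [W, P0, v, Pi.zero_apply, mul_zero]
    split_ifs <;> ring
  refine ⟨W M δ (P0 t) (v bb 0), L, ?_, ?_⟩
  · intro l
    rw [Fintype.sum_prod_type, Fintype.sum_prod_type]
    apply Finset.sum_congr rfl
    intro j _
    rw [Fintype.sum_prod_type]
    have h1 : ∀ (β : Fin B) (i : Fin (2 * a)), ∑ z : Fin M, (L l ((j, β, i), z)) ^ 2 =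
        if β = bb j then 2 * r ^ 2 * l j ^ 2 else 0 := by
      intro β i
      simp only [hLapp]
      split_ifs with hβ
      · rw [sum_slot (H.lt _ 0) (H.lt _ 1) (h01 _)]
        ring
      · simp
    simp only [h1]
    rw [Finset.sum_comm]
    simp only [Finset.sum_ite_eq', Finset.mem_univ, if_true, Finset.sum_const, Finset.card_univ,
      Fintype.card_fin, nsmul_eq_mul]
    rw [hr2]; push_cast; field_simp; ring
  · intro e he j l hl
    simp only [hLW]
    rcases List.mem_cons.mp he with rfl | he
    · -- the new level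
      set vv := v bb (update l j e) with hvv
      set U := univ.filter (fun s : S => s.1 = j ∧ s.2.1 = bb j) with hU
      have h1 := move_set H hδΛ hδΛ' hδ0 vv (hvmem bb l j hl) U (by
        intro s hs
        rw [hU, Finset.mem_filter] at hs
        obtain ⟨_, hs1, hs2⟩ := hs
        simp only [hvv, v, hs1, hs2, if_true, update_self]
        rfl) (by
        intro s hs
        rw [hU, Finset.mem_filter] at hs
        obtain ⟨_, hs1, hs2⟩ := hs
        by_contra hcon
        apply hbb (j, fun i => ⟨l i, hl i⟩)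
        refine ⟨s.2.2, ?_⟩
        have hs' : ((j, bb j, s.2.2) : S) = s := by
          rw [← hs2, ← hs1]
        simp only
        rw [hs']
        exact hcon)
      rw [h1]
      congr 1
      congr 1
      funext s
      by_cases hs1 : s.1 = j
      · by_cases hs2 : s.2.1 = bb j
        · have : s ∈ U := by rw [hU, Finset.mem_filter]; exact ⟨mem_univ _, hs1, hs2⟩
          simp only [this, if_true, v, hs1, hs2, update_self]
          rw [hδdef]; ring
        · have : s ∉ U := by rw [hU, Finset.mem_filter]; tauto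
          simp only [this, if_false, hvv, v, hs1, hs2]
      · have : s ∉ U := by rw [hU, Finset.mem_filter]; tauto
        simp only [this, if_false, hvv, v]
        rw [update_of_ne hs1, update_of_ne hs1]
    · -- lower levels
      have he' : r * e ∈ D₀.map (r * ·) := List.mem_map_of_mem he
      have hmemΛ' : ∀ (x : ℝ), x = e ∨ x = -e → ∀ p : S × Fin M,
          W M δ (P0 t) (v bb (update l j x)) p ∈ Λ' := by
        intro x hx p
        have hx1 : r * x ∈ Λ' := by
          rcases hx with rfl | rfl
          · rw [hΛ']; simp only [Finset.mem_union, List.mem_toFinset]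
            exact Or.inl (Or.inr he')
          · rw [hΛ']; simp only [Finset.mem_union, Finset.mem_image, List.mem_toFinset]
            exact Or.inr ⟨r * e, he', by ring⟩
        have hx2 : -(r * x) ∈ Λ' := by
          rcases hx with rfl | rfl
          · rw [hΛ']; simp only [Finset.mem_union, Finset.mem_image, List.mem_toFinset]
            exact Or.inr ⟨r * x, he', by ring⟩
          · rw [hΛ']; simp only [Finset.mem_union, List.mem_toFinset]
            exact Or.inl (Or.inr (by simpa using he'))
        have hδ1 : δ ∈ Λ' := by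
          rw [hΛ']; simp only [Finset.mem_union]; exact Or.inl (Or.inl (Or.inl hδΛ))
        have hδ2 : -δ ∈ Λ' := by
          rw [hΛ']; simp only [Finset.mem_union]; exact Or.inl (Or.inl (Or.inl hδΛ'))
        have hl1 : ∀ i, r * l i ∈ Λs := fun i =>
          Finset.mem_union_left _ (Finset.mem_image_of_mem _ (hl i))
        have hl1' : ∀ i, r * l i ∈ Λ' := by
          intro i
          rw [hΛ']; simp only [Finset.mem_union]; exact Or.inl (Or.inl (Or.inl (hl1 i)))
        have hl2' : ∀ i, -(r * l i) ∈ Λ' := by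
          intro i
          rw [hΛ']; simp only [Finset.mem_union, Finset.mem_image]
          exact Or.inl (Or.inl (Or.inr ⟨r * l i, hl1 i, rfl⟩))
        have hv1 : ∀ s, v bb (update l j x) s ∈ Λ' := by
          intro s
          simp only [v]
          split_ifs
          · by_cases hs : s.1 = j
            · rw [hs, update_self]; exact hx1
            · rw [update_of_ne hs]; exact hl1' _
          · exact hδ1
        have hv2 : ∀ s, -(v bb (update l j x) s) ∈ Λ' := by
          intro s
          simp only [v]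
          split_ifs
          · by_cases hs : s.1 = j
            · rw [hs, update_self]; exact hx2
            · rw [update_of_ne hs]; exact hl2' _
          · exact hδ2
        simp only [W]
        split_ifs
        · exact hv1 _
        · exact hv2 _
        · exact hδ2
      apply flip_set hF (r * e) he' univ _ _ (hmemΛ' e (Or.inl rfl)) (hmemΛ' (-e) (Or.inr rfl))
      · intro p hp; exact absurd (mem_univ p) hp
      · intro p
        simp only [W, P0, v]
        by_cases hs1 : p.1.1 = j
        · rw [hs1, update_self, update_self]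
          by_cases hs2 : p.1.2.1 = bb j
          · by_cases hz : (p.2 : ℕ) = t p.1 0
            · right; left
              simp only [hs2, hz, if_true]
              constructor
              · trivial
              · ring
            · by_cases hz1 : (p.2 : ℕ) = t p.1 1
              · right; right
                simp only [hs2, hz1, (h01 p.1).symm, if_true, if_false]
                constructor
                · trivial
                · ring
              · left
                simp only [hz, hz1, if_false]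
          · left
            simp only [hs2, if_false]
        · rw [update_of_ne hs1, update_of_ne hs1]
          left; rfl

/-- Symmetrisation theorem. -/
theorem star (T : ℕ) : ∀ (D : List ℝ), D.length = T →
    (∀ d ∈ D, 0 < d ∧ ∃ a b : ℕ, 0 < a ∧ 0 < b ∧ d ^ 2 = a / b) →
    ∀ (κ : Type) [Fintype κ] [DecidableEq κ] (Λ : Finset ℝ),
    ∃ (ι : Type) (_ : Fintype ι), ∀ ψ : (ι → ℝ) → ℝ, Bi ψ →
      ∃ (h : ι → ℝ) (L : (κ → ℝ) →ₗ[ℝ] (ι → ℝ)),
        (∀ l, ∑ i, (L l i) ^ 2 = ∑ i, (l i) ^ 2) ∧ Flip D Λ (fun l => ψ (h + L l)) := by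
  induction T with
  | zero =>
    intro D hD _ κ _ _ Λ
    have : D = [] := List.length_eq_zero_iff.mp hD
    subst this
    refine ⟨κ, inferInstance, fun ψ _ => ⟨0, LinearMap.id, fun l => rfl, ?_⟩⟩
    intro d hd
    simp at hd
  | succ T ih =>
    intro D hD hDr κ _ _ Λ
    match D, hD, hDr with
    | d :: D₀, hD, hDr =>
      obtain ⟨hd, a, b, ha, hb, hd2⟩ := hDr d (by simp)
      have haR : (0 : ℝ) < a := by exact_mod_cast ha
      set r : ℝ := Real.sqrt (1 / (4 * a)) with hr
      have hr0 : 0 < r := by rw [hr]; positivity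
      have hr2 : r ^ 2 = 1 / (4 * a) := by rw [hr, Real.sq_sqrt]; positivity
      obtain ⟨ι', i1, i2, Λ', hstep⟩ := step κ Λ d a b ha hb hd hd2 D₀ r hr0 hr2
      obtain ⟨ι, i3, hι⟩ := ih (D₀.map (r * ·)) (by simpa using hD) (by
        intro e he
        rw [List.mem_map] at he
        obtain ⟨e', he', rfl⟩ := he
        obtain ⟨he0, a', b', ha', hb', he2⟩ := hDr e' (List.mem_cons_of_mem _ he')
        refine ⟨mul_pos hr0 he0, a', 4 * a * b', ha', by positivity, ?_⟩
        rw [mul_pow, hr2, he2]
        push_cast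
        have hb'R : (0 : ℝ) < b' := by exact_mod_cast hb'
        field_simp) ι' Λ'
      refine ⟨ι, i3, fun ψ hψ => ?_⟩
      obtain ⟨h₁, L₁, hL₁, hF₁⟩ := hι ψ hψ
      obtain ⟨h₂, L₂, hL₂, hF₂⟩ := hstep (fun l => ψ (h₁ + L₁ l)) (hψ.comp h₁ L₁ hL₁) hF₁
      refine ⟨h₁ + L₁ h₂, L₁.comp L₂, fun l => ?_, ?_⟩
      · rw [LinearMap.comp_apply, hL₁, hL₂]
      · intro e he j l hl
        have := hF₂ e he j l hl
        simpa [map_add, add_assoc] using this

end Pool.Agent.Helper50.Canon
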