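import Mathlib
import Pool.Agent.Helper50.Canon.Star

set_option autoImplicit false

namespace Pool.Agent.Helper50.Canon

open Finset Function

/-- The finite statement: no sign-invariant two-coloured-progressions colouring. -/
def NoSign : Prop := ∀ c : ℤ → ℤ → ℤ → ℝ,
  (∀ x y z : ℤ, |x| ≤ 9 → |y| ≤ 6 → |z| ≤ 5 → c x y z = c |x| |y| |z|) →
  (∀ x y z a b e : ℤ, a ^ 2 + 2 * b ^ 2 + 3 * e ^ 2 = 36 →
    Two (c x y z) (c (x + a) (y + b) (z + e)) (c (x + 2 * a) (y + 2 * b) (z + 2 * e))) → False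

/-- the levels used -/
noncomputable def lev : List ℝ :=
  (List.range 9).map (fun k : ℕ => ((k : ℝ) + 1) / 6) ++
  (List.range 6).map (fun k : ℕ => Real.sqrt 2 * ((k : ℝ) + 1) / 6) ++
  (List.range 5).map (fun k : ℕ => Real.sqrt 3 * ((k : ℝ) + 1) / 6)

/-- the letters used -/
noncomputable def lett : Finset ℝ :=
  lev.toFinset ∪ lev.toFinset.image (fun x => -x) ∪ {0}

theorem lev_spec : ∀ d ∈ lev, 0 < d ∧ ∃ a b : ℕ, 0 < a ∧ 0 < b ∧ d ^ 2 = a / b := by
  intro d hd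
  simp only [lev, List.mem_append, List.mem_map, List.mem_range] at hd
  rcases hd with (⟨k, _, rfl⟩ | ⟨k, _, rfl⟩) | ⟨k, _, rfl⟩
  · refine ⟨by positivity, (k + 1) ^ 2, 36, by positivity, by norm_num, ?_⟩
    push_cast; ring
  · refine ⟨by positivity, 2 * (k + 1) ^ 2, 36, by positivity, by norm_num, ?_⟩
    rw [div_pow, mul_pow, Real.sq_sqrt (by norm_num)]
    push_cast; ring
  · refine ⟨by positivity, 3 * (k + 1) ^ 2, 36, by positivity, by norm_num, ?_⟩
    rw [div_pow, mul_pow, Real.sq_sqrt (by norm_num)]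
    push_cast; ring

theorem mem_lev_one {x : ℤ} (hx : 0 < x) (hx' : x ≤ 9) : (x : ℝ) / 6 ∈ lev := by
  simp only [lev, List.mem_append, List.mem_map, List.mem_range]
  obtain ⟨k, hk⟩ := Int.eq_ofNat_of_zero_le (by omega : 0 ≤ x - 1)
  refine Or.inl (Or.inl ⟨k, by omega, ?_⟩)
  have : x = k + 1 := by omega
  rw [this]; push_cast; ring

theorem mem_lev_two {x : ℤ} (hx : 0 < x) (hx' : x ≤ 6) : Real.sqrt 2 * (x : ℝ) / 6 ∈ lev := by
  simp only [lev, List.mem_append, List.mem_map, List.mem_range]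
  obtain ⟨k, hk⟩ := Int.eq_ofNat_of_zero_le (by omega : 0 ≤ x - 1)
  refine Or.inl (Or.inr ⟨k, by omega, ?_⟩)
  have : x = k + 1 := by omega
  rw [this]; push_cast; ring

theorem mem_lev_three {x : ℤ} (hx : 0 < x) (hx' : x ≤ 5) : Real.sqrt 3 * (x : ℝ) / 6 ∈ lev := by
  simp only [lev, List.mem_append, List.mem_map, List.mem_range]
  obtain ⟨k, hk⟩ := Int.eq_ofNat_of_zero_le (by omega : 0 ≤ x - 1)
  refine Or.inr ⟨k, by omega, ?_⟩
  have : x = k + 1 := by omega
  rw [this]; push_cast; ring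

theorem lett_of_lev {x : ℝ} (h : x ∈ lev) : x ∈ lett := by
  simp only [lett, Finset.mem_union, List.mem_toFinset]
  exact Or.inl (Or.inl h)

theorem lett_neg_of_lev {x : ℝ} (h : -x ∈ lev) : x ∈ lett := by
  simp only [lett, Finset.mem_union, Finset.mem_image, List.mem_toFinset]
  exact Or.inl (Or.inr ⟨-x, h, by ring⟩)

theorem lett_zero : (0 : ℝ) ∈ lett := by
  simp [lett]

theorem mem_lett_one {x : ℤ} (hx : |x| ≤ 9) : (x : ℝ) / 6 ∈ lett := by
  rw [abs_le] at hx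
  rcases lt_trichotomy x 0 with h | h | h
  · apply lett_neg_of_lev
    have := mem_lev_one (x := -x) (by omega) (by omega)
    push_cast at this
    convert this using 1; ring
  · subst h; simp only [Int.cast_zero, zero_div]; exact lett_zero
  · exact lett_of_lev (mem_lev_one h (by omega))

theorem mem_lett_two {x : ℤ} (hx : |x| ≤ 6) : Real.sqrt 2 * (x : ℝ) / 6 ∈ lett := by
  rw [abs_le] at hx
  rcases lt_trichotomy x 0 with h | h | h
  · apply lett_neg_of_lev
    have := mem_lev_two (x := -x) (by omega) (by omega)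
    push_cast at this
    convert this using 1; ring
  · subst h; simp only [Int.cast_zero, mul_zero, zero_div]; exact lett_zero
  · exact lett_of_lev (mem_lev_two h (by omega))

theorem mem_lett_three {x : ℤ} (hx : |x| ≤ 5) : Real.sqrt 3 * (x : ℝ) / 6 ∈ lett := by
  rw [abs_le] at hx
  rcases lt_trichotomy x 0 with h | h | h
  · apply lett_neg_of_lev
    have := mem_lev_three (x := -x) (by omega) (by omega)
    push_cast at this
    convert this using 1; ring
  · subst h; simp only [Int.cast_zero, mul_zero, zero_div]; exact lett_zero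
  · exact lett_of_lev (mem_lev_three h (by omega))

/-- the embedded integer points -/
noncomputable def pt (x y z : ℤ) : Fin 3 → ℝ :=
  ![(x : ℝ) / 6, Real.sqrt 2 * (y : ℝ) / 6, Real.sqrt 3 * (z : ℝ) / 6]

theorem pt_lett {x y z : ℤ} (hx : |x| ≤ 9) (hy : |y| ≤ 6) (hz : |z| ≤ 5) :
    ∀ i, pt x y z i ∈ lett := by
  intro i
  fin_cases i
  · exact mem_lett_one hx
  · exact mem_lett_two hy
  · exact mem_lett_three hz

theorem flip_one {φ : (Fin 3 → ℝ) → ℝ} (hF : Flip lev lett φ) {x y z : ℤ} (hx : |x| ≤ 9)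
    (hy : |y| ≤ 6) (hz : |z| ≤ 5) : φ (pt x y z) = φ (pt |x| y z) := by
  rcases lt_trichotomy x 0 with h | h | h
  · rw [abs_of_neg h] at hx ⊢
    have := hF ((-x : ℤ) / 6 : ℝ) (mem_lev_one (by omega) hx) 0 (pt 0 y z)
      (pt_lett (by simp) hy hz)
    have e1 : update (pt 0 y z) 0 ((-x : ℤ) / 6 : ℝ) = pt (-x) y z := by
      ext i; fin_cases i <;> simp [pt]
    have e2 : update (pt 0 y z) 0 (-((-x : ℤ) / 6 : ℝ)) = pt x y z := by
      ext i; fin_cases i
      · simp [pt]; ring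
      · simp [pt]
      · simp [pt]
    rw [e1, e2] at this
    exact this.symm
  · subst h; simp
  · rw [abs_of_pos h]

theorem flip_two {φ : (Fin 3 → ℝ) → ℝ} (hF : Flip lev lett φ) {x y z : ℤ} (hx : |x| ≤ 9)
    (hy : |y| ≤ 6) (hz : |z| ≤ 5) : φ (pt x y z) = φ (pt x |y| z) := by
  rcases lt_trichotomy y 0 with h | h | h
  · rw [abs_of_neg h] at hy ⊢
    have := hF (Real.sqrt 2 * (-y : ℤ) / 6 : ℝ) (mem_lev_two (by omega) hy) 1 (pt x 0 z)
      (pt_lett hx (by simp) hz)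
    have e1 : update (pt x 0 z) 1 (Real.sqrt 2 * (-y : ℤ) / 6 : ℝ) = pt x (-y) z := by
      ext i; fin_cases i <;> simp [pt]
    have e2 : update (pt x 0 z) 1 (-(Real.sqrt 2 * (-y : ℤ) / 6 : ℝ)) = pt x y z := by
      ext i; fin_cases i
      · simp [pt]
      · simp [pt]; ring
      · simp [pt]
    rw [e1, e2] at this
    exact this.symm
  · subst h; simp
  · rw [abs_of_pos h]

theorem flip_three {φ : (Fin 3 → ℝ) → ℝ} (hF : Flip lev lett φ) {x y z : ℤ} (hx : |x| ≤ 9)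
    (hy : |y| ≤ 6) (hz : |z| ≤ 5) : φ (pt x y z) = φ (pt x y |z|) := by
  rcases lt_trichotomy z 0 with h | h | h
  · rw [abs_of_neg h] at hz ⊢
    have := hF (Real.sqrt 3 * (-z : ℤ) / 6 : ℝ) (mem_lev_three (by omega) hz) 2 (pt x y 0)
      (pt_lett hx hy (by simp))
    have e1 : update (pt x y 0) 2 (Real.sqrt 3 * (-z : ℤ) / 6 : ℝ) = pt x y (-z) := by
      ext i; fin_cases i <;> simp [pt]
    have e2 : update (pt x y 0) 2 (-(Real.sqrt 3 * (-z : ℤ) / 6 : ℝ)) = pt x y z := by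
      ext i; fin_cases i
      · simp [pt]
      · simp [pt]
      · simp [pt]; ring
    rw [e1, e2] at this
    exact this.symm
  · subst h; simp
  · rw [abs_of_pos h]

theorem flip_all {φ : (Fin 3 → ℝ) → ℝ} (hF : Flip lev lett φ) {x y z : ℤ} (hx : |x| ≤ 9)
    (hy : |y| ≤ 6) (hz : |z| ≤ 5) : φ (pt x y z) = φ (pt |x| |y| |z|) := by
  rw [flip_one hF hx hy hz, flip_two hF (by simpa using hx) hy hz,
    flip_three hF (by simpa using hx) (by simpa using hy) hz]

theorem pt_add (x y z a b e : ℤ) : pt x y z + pt a b e = pt (x + a) (y + b) (z + e) := by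
  ext i; fin_cases i <;> simp [pt] <;> ring

theorem pt_norm {a b e : ℤ} (h : a ^ 2 + 2 * b ^ 2 + 3 * e ^ 2 = 36) :
    ∑ i, pt a b e i ^ 2 = 1 := by
  have hR : (a : ℝ) ^ 2 + 2 * (b : ℝ) ^ 2 + 3 * (e : ℝ) ^ 2 = 36 := by exact_mod_cast h
  simp only [pt, Fin.sum_univ_three, Matrix.cons_val_zero, Matrix.cons_val_one, Matrix.cons_val,
    div_pow, mul_pow, Real.sq_sqrt (show (0:ℝ) ≤ 2 by norm_num),
    Real.sq_sqrt (show (0:ℝ) ≤ 3 by norm_num)]
  linarith

/-- In some finite-dimensional space no colouring gives exactly two colours to every unit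
three-term progression. -/
theorem no_bi (hns : NoSign) : ∃ (ι : Type) (_ : Fintype ι), ∀ ψ : (ι → ℝ) → ℝ, ¬ Bi ψ := by
  obtain ⟨ι, i1, hι⟩ := star lev.length lev rfl lev_spec (Fin 3) lett
  refine ⟨ι, i1, fun ψ hψ => ?_⟩
  obtain ⟨h, L, hL, hF⟩ := hι ψ hψ
  have hφ := hψ.comp h L hL
  refine hns (fun x y z => ψ (h + L (pt x y z))) ?_ ?_
  · intro x y z hx hy hz
    exact flip_all hF hx hy hz
  · intro x y z a b e habe
    have := hφ (pt x y z) (pt a b e) (pt_norm habe)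
    rw [pt_add, pt_add, pt_add] at this
    convert this using 5 <;> ring_nf

/-- A colouring of a Euclidean space of suitable dimension has a monochromatic or rainbow unit
three-term progression. -/
theorem canon (hns : NoSign) : ∃ n : ℕ, ∀ χ : EuclideanSpace ℝ (Fin n) → ℝ,
    ∃ x u : EuclideanSpace ℝ (Fin n), ‖u‖ = 1 ∧
      ¬ Two (χ x) (χ (x + u)) (χ (x + (u + u))) := by
  obtain ⟨ι, i1, hι⟩ := no_bi hns
  refine ⟨Fintype.card ι, fun χ => ?_⟩
  by_contra hcon
  push Not at hcon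
  let e := Fintype.equivFin ι
  refine hι (fun y => χ (WithLp.toLp 2 (fun i => y (e.symm i)))) ?_
  intro x u hu
  have := hcon (WithLp.toLp 2 (fun i => x (e.symm i))) (WithLp.toLp 2 (fun i => u (e.symm i))) (by
    rw [EuclideanSpace.norm_eq]
    simp only [Real.norm_eq_abs, sq_abs]
    rw [Equiv.sum_comp e.symm (fun i => u i ^ 2), hu, Real.sqrt_one])
  exact this

/-- The colouring `⌊|x|²⌋ mod 4` has no monochromatic unit three-term progression. -/
theorem floor_mod {n : ℕ} (x y z : EuclideanSpace ℝ (Fin n)) (h1 : dist x y = 1)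
    (h2 : dist y z = 1) (h3 : dist x z = 2)
    (hxy : ⌊‖x‖ ^ 2⌋ % 4 = ⌊‖y‖ ^ 2⌋ % 4) (hyz : ⌊‖y‖ ^ 2⌋ % 4 = ⌊‖z‖ ^ 2⌋ % 4) : False := by
  have hmid : y = midpoint ℝ x z := by
    apply eq_midpoint_of_dist_eq_half
    · rw [h1, h3]; norm_num
    · rw [h2, h3]; norm_num
  have hsq : ‖x‖ ^ 2 + ‖z‖ ^ 2 - 2 * ‖y‖ ^ 2 = 2 := by
    have hp := parallelogram_law_with_norm ℝ x z
    have hy2 : ‖x + z‖ = 2 * ‖y‖ := by
      rw [hmid, midpoint_eq_smul_add, norm_smul]
      simp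
    have hd : ‖x - z‖ = 2 := by rw [← dist_eq_norm, h3]
    rw [hy2, hd] at hp
    nlinarith [hp]
  have f1 := Int.floor_le (‖x‖ ^ 2)
  have f2 := Int.lt_floor_add_one (‖x‖ ^ 2)
  have f3 := Int.floor_le (‖y‖ ^ 2)
  have f4 := Int.lt_floor_add_one (‖y‖ ^ 2)
  have f5 := Int.floor_le (‖z‖ ^ 2)
  have f6 := Int.lt_floor_add_one (‖z‖ ^ 2)
  set A := ⌊‖x‖ ^ 2⌋
  set Bb := ⌊‖y‖ ^ 2⌋
  set C := ⌊‖z‖ ^ 2⌋
  have g1 : ((A + C - 2 * Bb : ℤ) : ℝ) < 4 := by push_cast; linarith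
  have g2 : (0 : ℝ) < ((A + C - 2 * Bb : ℤ) : ℝ) := by push_cast; linarith
  have g1' : A + C - 2 * Bb < 4 := by exact_mod_cast g1
  have g2' : 0 < A + C - 2 * Bb := by exact_mod_cast g2
  omega

end Pool.Agent.Helper50.Canon
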