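import Mathlib
import Pool.Agent.Helper50.Canon.Defs

set_option autoImplicit false

namespace Pool.Agent.Helper50.Canon

/-- code of the literal `c i = c j` -/
def pl (i j : ℕ) : ℕ := 2 * (64 * (i % 64) + j % 64)
/-- code of the literal `c i ≠ c j` -/
def nl (i j : ℕ) : ℕ := 2 * (64 * (i % 64) + j % 64) + 1

/-- meaning of a literal -/
def Lit (c : ℕ → ℝ) (l : ℕ) : Prop :=
  (l % 2 = 0 ∧ c (l / 2 / 64) = c (l / 2 % 64)) ∨ (l % 2 = 1 ∧ c (l / 2 / 64) ≠ c (l / 2 % 64))

theorem lit_pl {c : ℕ → ℝ} {i j : ℕ} (h : c (i % 64) = c (j % 64)) : Lit c (pl i j) := by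
  have e1 : 2 * (64 * (i % 64) + j % 64) / 2 / 64 = i % 64 := by omega
  have e2 : 2 * (64 * (i % 64) + j % 64) / 2 % 64 = j % 64 := by omega
  left
  refine ⟨by unfold pl; omega, ?_⟩
  unfold pl
  rw [e1, e2]; exact h

theorem lit_nl {c : ℕ → ℝ} {i j : ℕ} (h : c (i % 64) ≠ c (j % 64)) : Lit c (nl i j) := by
  have e1 : (2 * (64 * (i % 64) + j % 64) + 1) / 2 / 64 = i % 64 := by omega
  have e2 : (2 * (64 * (i % 64) + j % 64) + 1) / 2 % 64 = j % 64 := by omega
  right
  refine ⟨by unfold nl; omega, ?_⟩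
  unfold nl
  rw [e1, e2]; exact h

/-- the negated literal -/
def ng (l : ℕ) : ℕ := l ^^^ 1

theorem lit_ng {c : ℕ → ℝ} {l : ℕ} (h : Lit c l) : ¬ Lit c (ng l) := by
  have h1 : (l % 2 = 0 → ng l = l + 1) ∧ (l % 2 = 1 → ng l = l - 1) := by
    unfold ng
    constructor
    · intro h
      rw [Nat.xor_one_of_even (Nat.even_iff.mpr h)]
    · intro h
      rw [Nat.xor_one_of_odd (Nat.odd_iff.mpr h)]
  rcases h with ⟨h0, h⟩ | ⟨h0, h⟩
  · rw [h1.1 h0]
    rintro (⟨h2, _⟩ | ⟨_, h3⟩)
    · omega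
    · have : (l + 1) / 2 = l / 2 := by omega
      rw [this] at h3
      exact h3 h
  · rw [h1.2 h0]
    rintro (⟨_, h3⟩ | ⟨h2, _⟩)
    · have : (l - 1) / 2 = l / 2 := by omega
      rw [this] at h3
      exact h h3
    · omega

/-- unit propagation along a list of clauses; `F` is the bit set of false literals -/
def run (F : ℕ) : List (List ℕ) → Bool
  | [] => false
  | L :: Ls =>
    match L.filter (fun l => !(F.testBit l)) with
    | [] => true
    | [k] => run (F ||| 2 ^ ng k) Ls
    | _ => false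

theorem run_sound (c : ℕ → ℝ) : ∀ (Ls : List (List ℕ)) (F : ℕ),
    (∀ l, F.testBit l = true → ¬ Lit c l) → (∀ L ∈ Ls, ∃ l ∈ L, Lit c l) → run F Ls = true →
      False := by
  intro Ls
  induction Ls with
  | nil => intro F _ _ h; simp [run] at h
  | cons L Ls ih =>
    intro F hF hL hr
    obtain ⟨l, hl, hlit⟩ := hL L (by simp)
    have hmem : l ∈ L.filter (fun l => !(F.testBit l)) := by
      rw [List.mem_filter]
      refine ⟨hl, ?_⟩
      by_contra hcon
      apply hF l _ hlit
      simpa using hcon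
    unfold run at hr
    split at hr
    · rename_i heq
      rw [heq] at hmem
      simp at hmem
    · rename_i k heq
      rw [heq] at hmem
      simp only [List.mem_singleton] at hmem
      subst hmem
      apply ih (F ||| 2 ^ ng l) _ (fun L' hL' => hL L' (by simp [hL'])) hr
      intro l' hl'
      rw [Nat.testBit_or, Bool.or_eq_true, Nat.testBit_two_pow] at hl'
      rcases hl' with h | h
      · exact hF l' h
      · have : ng l = l' := by simpa using h
        rw [← this]
        exact lit_ng hlit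
    · simp at hr

/-- bit set of a clause -/
def mk : List ℕ → ℕ
  | [] => 0
  | l :: L => mk L ||| 2 ^ l

theorem mk_testBit : ∀ (L : List ℕ) (l : ℕ), (mk L).testBit l = true → l ∈ L := by
  intro L
  induction L with
  | nil => intro l h; simp [mk] at h
  | cons a L ih =>
    intro l h
    unfold mk at h
    rw [Nat.testBit_or, Bool.or_eq_true, Nat.testBit_two_pow] at h
    rcases h with h | h
    · exact List.mem_cons_of_mem _ (ih l h)
    · have : a = l := by simpa using h
      simp [this]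

/-- `L` follows from the system `Sys` -/
def Valid (aps : List (ℕ × ℕ × ℕ)) (L : List ℕ) : Prop :=
  ∀ c : ℕ → ℝ, (∀ t ∈ aps, Two (c (t.1 % 64)) (c (t.2.1 % 64)) (c (t.2.2 % 64))) →
    ∃ l ∈ L, Lit c l

/-- all clauses of a list are valid -/
inductive All (aps : List (ℕ × ℕ × ℕ)) : List (List ℕ) → Prop
  | nil : All aps []
  | cons {L : List ℕ} {Ls : List (List ℕ)} : Valid aps L → All aps Ls → All aps (L :: Ls)

theorem All.forall {aps : List (ℕ × ℕ × ℕ)} {Ls : List (List ℕ)} (h : All aps Ls) :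
    ∀ L ∈ Ls, Valid aps L := by
  induction h with
  | nil => intro L h; simp at h
  | cons h1 _ ih =>
    intro L' hL'
    rcases List.mem_cons.mp hL' with rfl | h
    · exact h1
    · exact ih L' h

theorem rup {aps : List (ℕ × ℕ × ℕ)} (L : List ℕ) {Ls : List (List ℕ)} (h : All aps Ls)
    (hr : run (mk L) Ls = true) : Valid aps L := by
  intro c hc
  by_contra hcon
  push Not at hcon
  exact run_sound c Ls (mk L) (fun l hl => hcon l (mk_testBit L l hl))
    (fun L' hL' => h.forall L' hL' c hc) hr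

theorem t1 {aps : List (ℕ × ℕ × ℕ)} (i j k : ℕ) : Valid aps [nl i j, nl j k, pl i k] := by
  intro c _
  by_cases h1 : c (i % 64) = c (j % 64)
  · by_cases h2 : c (j % 64) = c (k % 64)
    · exact ⟨_, by simp, lit_pl (h1.trans h2)⟩
    · exact ⟨nl j k, by simp, lit_nl h2⟩
  · exact ⟨nl i j, by simp, lit_nl h1⟩

theorem t2 {aps : List (ℕ × ℕ × ℕ)} (i j k : ℕ) : Valid aps [nl i j, nl i k, pl j k] := by
  intro c _
  by_cases h1 : c (i % 64) = c (j % 64)
  · by_cases h2 : c (i % 64) = c (k % 64)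
    · exact ⟨_, by simp, lit_pl (h1.symm.trans h2)⟩
    · exact ⟨nl i k, by simp, lit_nl h2⟩
  · exact ⟨nl i j, by simp, lit_nl h1⟩

theorem t3 {aps : List (ℕ × ℕ × ℕ)} (i j k : ℕ) : Valid aps [nl j k, nl i k, pl i j] := by
  intro c _
  by_cases h1 : c (j % 64) = c (k % 64)
  · by_cases h2 : c (i % 64) = c (k % 64)
    · exact ⟨_, by simp, lit_pl (h2.trans h1.symm)⟩
    · exact ⟨nl i k, by simp, lit_nl h2⟩
  · exact ⟨nl j k, by simp, lit_nl h1⟩

/-- normalised literals -/
def pn (i j : ℕ) : ℕ := if i < j then pl i j else pl j i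
/-- normalised literals -/
def nn (i j : ℕ) : ℕ := if i < j then nl i j else nl j i

theorem lit_pn {c : ℕ → ℝ} {i j : ℕ} (h : c (i % 64) = c (j % 64)) : Lit c (pn i j) := by
  unfold pn; split_ifs
  · exact lit_pl h
  · exact lit_pl h.symm

theorem lit_nn {c : ℕ → ℝ} {i j : ℕ} (h : c (i % 64) ≠ c (j % 64)) : Lit c (nn i j) := by
  unfold nn; split_ifs
  · exact lit_nl h
  · exact lit_nl h.symm

/-- the clauses of a relation -/
def apc (a b d : ℕ) : List (List ℕ) :=
  if a = d then [[nn a b]] else if a = b then [[nn a d]] else if b = d then [[nn a d]] else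
    [[pn a b, pn b d, pn a d], [nn a b, nn b d], [nn a b, nn a d], [nn b d, nn a d]]

theorem ap_valid {aps : List (ℕ × ℕ × ℕ)} (a b d : ℕ) (L : List ℕ)
    (h : (aps.contains (a, b, d) && (apc a b d).contains L) = true) : Valid aps L := by
  rw [Bool.and_eq_true] at h
  obtain ⟨h1, h2⟩ := h
  have h1' : (a, b, d) ∈ aps := List.contains_iff_mem.mp h1
  have h2' : L ∈ apc a b d := List.contains_iff_mem.mp h2
  intro c hc
  have h3 := hc _ h1'
  simp only at h3
  unfold apc at h2'
  split_ifs at h2' with e1 e2 e3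
  · simp only [List.mem_singleton] at h2'
    subst e1; subst h2'
    refine ⟨nn a b, by simp, lit_nn ?_⟩
    rcases h3 with ⟨h4, h5⟩ | ⟨h4, h5⟩ | ⟨h4, h5⟩
    · exact absurd h4.symm h5
    · exact h5
    · exact h5
  · simp only [List.mem_singleton] at h2'
    subst e2; subst h2'
    refine ⟨nn a d, by simp, lit_nn ?_⟩
    rcases h3 with ⟨h4, h5⟩ | ⟨h4, h5⟩ | ⟨h4, h5⟩
    · exact h5
    · exact absurd rfl h5
    · exact absurd rfl h5
  · simp only [List.mem_singleton] at h2'
    subst e3; subst h2'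
    refine ⟨nn a b, by simp, lit_nn ?_⟩
    rcases h3 with ⟨h4, h5⟩ | ⟨h4, h5⟩ | ⟨h4, h5⟩
    · exact absurd rfl h5
    · exact h5
    · exact absurd h4 h5
  · simp only [List.mem_cons, List.not_mem_nil, or_false] at h2'
    rcases h3 with ⟨h4, h5⟩ | ⟨h4, h5⟩ | ⟨h4, h5⟩
    · have h6 : c (a % 64) ≠ c (d % 64) := fun h => h5 (h4.symm.trans h)
      rcases h2' with rfl | rfl | rfl | rfl
      · exact ⟨_, by simp, lit_pn h4⟩
      · exact ⟨_, List.mem_cons_of_mem _ (List.mem_singleton.mpr rfl), lit_nn h5⟩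
      · exact ⟨_, List.mem_cons_of_mem _ (List.mem_singleton.mpr rfl), lit_nn h6⟩
      · exact ⟨_, by simp, lit_nn h5⟩
    · have h6 : c (a % 64) ≠ c (d % 64) := fun h => h5 (h.trans h4.symm)
      rcases h2' with rfl | rfl | rfl | rfl
      · exact ⟨pn b d, by simp, lit_pn h4⟩
      · exact ⟨_, by simp, lit_nn h5⟩
      · exact ⟨_, by simp, lit_nn h5⟩
      · exact ⟨_, List.mem_cons_of_mem _ (List.mem_singleton.mpr rfl), lit_nn h6⟩
    · have h6 : c (b % 64) ≠ c (d % 64) := fun h => h5 (h4.trans h.symm)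
      rcases h2' with rfl | rfl | rfl | rfl
      · exact ⟨pn a d, by simp, lit_pn h4⟩
      · exact ⟨_, by simp, lit_nn h5⟩
      · exact ⟨_, by simp, lit_nn h5⟩
      · exact ⟨_, by simp, lit_nn h6⟩

end Pool.Agent.Helper50.Canon
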