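import Mathlib
import Pool.Agent.Helper50.Canon.Assemble

set_option autoImplicit false

namespace Pool.Agent.Helper50.Canon

open Finset Function

/-- `{0,1,2}` in the line -/
noncomputable def K012 : Finset (EuclideanSpace ℝ (Fin 1)) :=
  {EuclideanSpace.single 0 0, EuclideanSpace.single 0 1, EuclideanSpace.single 0 2}

theorem main (hns : NoSign) :
    ¬ (∀ (d : ℕ) (K : Finset (EuclideanSpace ℝ (Fin d))),
      (∃ n : ℕ, ∀ χ : EuclideanSpace ℝ (Fin n) → ℝ,
        ∃ f : EuclideanSpace ℝ (Fin d) → EuclideanSpace ℝ (Fin n),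
          (∀ x ∈ K, ∀ y ∈ K, dist (f x) (f y) = dist x y) ∧
          ((∀ x ∈ K, ∀ y ∈ K, χ (f x) = χ (f y)) ∨
           (∀ x ∈ K, ∀ y ∈ K, x ≠ y → χ (f x) ≠ χ (f y)))) →
      (∀ r : ℕ, ∃ n : ℕ, ∀ χ : EuclideanSpace ℝ (Fin n) → Fin r,
        ∃ f : EuclideanSpace ℝ (Fin d) → EuclideanSpace ℝ (Fin n),
          (∀ x ∈ K, ∀ y ∈ K, dist (f x) (f y) = dist x y) ∧
          (∀ x ∈ K, ∀ y ∈ K, χ (f x) = χ (f y)))) := by
  intro hall
  have hd01 : dist (EuclideanSpace.single 0 0 : EuclideanSpace ℝ (Fin 1))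
      (EuclideanSpace.single 0 1) = 1 := by
    rw [EuclideanSpace.dist_eq]; simp
  have hd12 : dist (EuclideanSpace.single 0 1 : EuclideanSpace ℝ (Fin 1))
      (EuclideanSpace.single 0 2) = 1 := by
    rw [EuclideanSpace.dist_eq]; simp [Real.dist_eq]; norm_num
  have hd02 : dist (EuclideanSpace.single 0 0 : EuclideanSpace ℝ (Fin 1))
      (EuclideanSpace.single 0 2) = 2 := by
    rw [EuclideanSpace.dist_eq]; simp
  have h := hall 1 K012 ?_ 4
  · obtain ⟨n, hn⟩ := h
    obtain ⟨f, hf, hmono⟩ := hn (fun x => ⟨(⌊‖x‖ ^ 2⌋ % 4).toNat, by omega⟩)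
    have m0 : (EuclideanSpace.single 0 0 : EuclideanSpace ℝ (Fin 1)) ∈ K012 := by simp [K012]
    have m1 : (EuclideanSpace.single 0 1 : EuclideanSpace ℝ (Fin 1)) ∈ K012 := by simp [K012]
    have m2 : (EuclideanSpace.single 0 2 : EuclideanSpace ℝ (Fin 1)) ∈ K012 := by simp [K012]
    have c01 := hmono _ m0 _ m1
    have c12 := hmono _ m1 _ m2
    simp only [Fin.mk.injEq] at c01 c12
    exact floor_mod _ _ _ ((hf _ m0 _ m1).trans hd01) ((hf _ m1 _ m2).trans hd12)
      ((hf _ m0 _ m2).trans hd02) (by omega) (by omega)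
  · obtain ⟨n, hn⟩ := canon hns
    refine ⟨n, fun χ => ?_⟩
    obtain ⟨x, u, hu, hχ⟩ := hn χ
    refine ⟨fun p => x + (p 0) • u, ?_, ?_⟩
    · intro p _ q _
      rw [dist_eq_norm, dist_eq_norm]
      have : x + p 0 • u - (x + q 0 • u) = (p 0 - q 0) • u := by
        rw [sub_smul]; abel
      rw [this, norm_smul, hu, mul_one, EuclideanSpace.norm_eq]
      simp [Real.sqrt_sq_eq_abs]
    · have v0 : x + ((EuclideanSpace.single 0 0 : EuclideanSpace ℝ (Fin 1)) 0) • u = x := by
        simp
      have v1 : x + ((EuclideanSpace.single 0 1 : EuclideanSpace ℝ (Fin 1)) 0) • u = x + u := by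
        simp
      have v2 : x + ((EuclideanSpace.single 0 2 : EuclideanSpace ℝ (Fin 1)) 0) • u =
          x + (u + u) := by
        simp [two_smul]
      simp only [K012, Finset.mem_insert, Finset.mem_singleton, forall_eq_or_imp, forall_eq]
      rw [v0, v1, v2]
      unfold Two at hχ
      generalize χ x = a at *
      generalize χ (x + u) = b at *
      generalize χ (x + (u + u)) = c at *
      by_cases h1 : a = b
      · by_cases h2 : b = c
        · left; subst h1; subst h2; simp
        · exact absurd (Or.inl ⟨h1, h2⟩) hχ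
      · by_cases h2 : b = c
        · exact absurd (Or.inr (Or.inl ⟨h2, h1⟩)) hχ
        · by_cases h3 : a = c
          · exact absurd (Or.inr (Or.inr ⟨h3, h1⟩)) hχ
          · right
            refine ⟨⟨?_, ?_, ?_⟩, ⟨?_, ?_, ?_⟩, ⟨?_, ?_, ?_⟩⟩ <;> intro hh <;>
              first
                | exact absurd rfl hh
                | exact h1
                | exact h2
                | exact h3
                | exact Ne.symm h1
                | exact Ne.symm h2
                | exact Ne.symm h3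

end Pool.Agent.Helper50.Canon
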