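import Mathlib
import Pool.Agent.Helper50.Canon.Final
import Pool.Agent.Helper50.Canon.CD.C12

set_option autoImplicit false

namespace Pool.Agent.Helper50.Canon.CD

/-- coordinates (absolute values) of the points -/
def pts : List (ℤ × ℤ × ℤ) := [(0, 5, 1), (5, 3, 2), (7, 3, 2), (8, 1, 1), (1, 3, 2), (6, 1, 3), (5, 1, 4), (2, 1, 1), (2, 1, 3), (5, 5, 2), (4, 1, 3), (4, 3, 1), (0, 5, 3), (0, 1, 5), (1, 1, 4), (7, 1, 2), (3, 1, 2), (2, 1, 5), (0, 3, 1), (4, 5, 1), (8, 3, 1), (2, 3, 1), (2, 3, 3), (1, 1, 0), (4, 1, 1), (1, 3, 4), (3, 5, 0), (5, 1, 2), (0, 1, 1), (6, 5, 1), (2, 5, 3), (7, 3, 0), (1, 3, 0), (3, 3, 0), (6, 3, 3), (3, 5, 2), (2, 5, 1), (7, 1, 0), (5, 1, 0), (3, 3, 2), (9, 1, 0), (1, 5, 2), (4, 3, 3), (3, 1, 4), (5, 5, 0), (3, 1, 0), (6,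 3, 1), (1, 5, 0), (0, 3, 3), (1, 1, 2), (3, 3, 4), (0, 1, 3), (6, 1, 1)]

/-- point with index `i` -/
def ptn (i : ℕ) : ℤ × ℤ × ℤ := pts.getD i (0, 0, 0)

/-- a relation with its witness -/
def w (i j k : ℕ) (x y z a b e : ℤ) : (ℕ × ℕ × ℕ) × (ℤ × ℤ × ℤ) × (ℤ × ℤ × ℤ) :=
  ((i, j, k), (x, y, z), (a, b, e))

/-- part of the list of relations -/
def W0 : List ((ℕ × ℕ × ℕ) × (ℤ × ℤ × ℤ) × (ℤ × ℤ × ℤ)) :=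
  [w 40 27 25 9 (-1) 0 (-4) 2 2,
   w 40 11 41 9 1 0 (-5) 2 1,
   w 40 24 4 9 (-1) 0 (-5) 2 1,
   w 40 45 45 9 1 0 (-6) 0 0,
   w 20 37 29 8 (-3) 1 (-1) 4 (-1),
   w 20 52 19 8 (-3) 1 (-2) 4 0,
   w 20 10 13 8 3 1 (-4) (-2) 2,
   w 20 24 51 8 3 (-1) (-4) (-2) 2,
   w 20 16 8 8 3 1 (-5) (-2) 1,
   w 20 45 7 8 3 1 (-5) (-2) (-1),
   w 20 21 11 8 3 1 (-6) 0 0,
   w 3 27 17 8 1 (-1) (-3) 0 3,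
   w 3 11 12 8 1 (-1) (-4) 2 2,
   w 3 24 48 8 (-1) (-1) (-4) 2 2,
   w 3 39 30 8 1 1 (-5) 2 1,
   w 3 33 36 8 1 1 (-5) 2 (-1),
   w 3 16 22 8 (-1) 1 (-5) 2 1,
   w 3 45 21 8 (-1) 1 (-5) 2 (-1),
   w 3 7 24 8 1 1 (-6) 0 0,
   w 2 52 44 7 (-3) 2 (-1) 4 (-1),
   w 2 52 6 7 3 (-2) (-1) (-2) 3,
   w 2 27 35 7 (-3) 2 (-2) 4 0,
   w 2 11 25 7 3 (-2) (-3) 0 3,
   w 2 45 49 7 3 2 (-4) (-2) (-2),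
   w 2 8 43 7 3 2 (-5) (-2) 1]

/-- part of the list of relations -/
def W1 : List ((ℕ × ℕ × ℕ) × (ℤ × ℤ × ℤ) × (ℤ × ℤ × ℤ)) :=
  [w 2 7 45 7 3 2 (-5) (-2) (-1),
   w 2 4 1 7 3 2 (-6) 0 0,
   w 31 52 9 7 (-3) 0 (-1) 4 1,
   w 31 16 14 7 3 0 (-4) (-2) 2,
   w 31 7 16 7 3 0 (-5) (-2) 1,
   w 15 24 14 7 1 (-2) (-3) 0 3,
   w 15 33 41 7 1 2 (-4) 2 (-2),
   w 15 45 4 7 (-1) 2 (-4) 2 (-2),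
   w 15 21 26 7 1 2 (-5) 2 (-1),
   w 15 8 50 7 (-1) 2 (-5) 2 1,
   w 15 7 33 7 (-1) 2 (-5) 2 (-1),
   w 15 49 27 7 1 2 (-6) 0 0,
   w 37 16 25 7 (-1) 0 (-4) 2 2,
   w 37 21 35 7 1 0 (-5) 2 1,
   w 37 7 39 7 (-1) 0 (-5) 2 1,
   w 37 23 38 7 1 0 (-6) 0 0,
   w 29 27 42 6 5 1 (-1) (-4) 1,
   w 29 38 11 6 5 1 (-1) (-4) (-1),
   w 29 24 21 6 5 1 (-2) (-4) 0,
   w 29 22 17 6 5 1 (-4) (-2) 2,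
   w 29 21 8 6 5 (-1) (-4) (-2) 2,
   w 29 4 10 6 5 1 (-5) (-2) 1,
   w 29 32 24 6 5 1 (-5) (-2) (-1),
   w 29 0 29 6 5 1 (-6) 0 0,
   w 34 27 19 6 (-3) 3 (-1) 4 (-1)]

/-- part of the list of relations -/
def W2 : List ((ℕ × ℕ × ℕ) × (ℤ × ℤ × ℤ) × (ℤ × ℤ × ℤ)) :=
  [w 34 38 10 6 3 3 (-1) (-2) (-3),
   w 34 10 30 6 (-3) 3 (-2) 4 0,
   w 34 33 48 6 3 3 (-3) 0 (-3),
   w 34 7 7 6 3 3 (-4) (-2) (-2),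
   w 34 49 24 6 3 3 (-5) (-2) (-1),
   w 34 48 34 6 3 3 (-6) 0 0,
   w 46 38 19 6 (-3) 1 (-1) 4 (-1),
   w 46 24 36 6 (-3) 1 (-2) 4 0,
   w 46 8 17 6 3 1 (-4) (-2) 2,
   w 46 7 8 6 3 (-1) (-4) (-2) 2,
   w 46 49 10 6 3 1 (-5) (-2) 1,
   w 46 23 24 6 3 1 (-5) (-2) (-1),
   w 46 18 46 6 3 1 (-6) 0 0,
   w 5 38 42 6 (-1) 3 (-1) 2 (-3),
   w 5 45 51 6 1 3 (-3) 0 (-3),
   w 5 21 36 6 1 3 (-4) 2 (-2),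
   w 5 7 21 6 (-1) 3 (-4) 2 (-2),
   w 5 4 19 6 1 3 (-5) 2 (-1),
   w 5 49 11 6 (-1) 3 (-5) 2 (-1),
   w 5 51 5 6 1 3 (-6) 0 0,
   w 52 16 13 6 1 (-1) (-3) 0 3,
   w 52 21 30 6 1 (-1) (-4) 2 2,
   w 52 7 22 6 (-1) (-1) (-4) 2 2,
   w 52 32 19 6 1 1 (-5) 2 (-1),
   w 52 49 42 6 (-1) 1 (-5) 2 1]

/-- part of the list of relations -/
def W3 : List ((ℕ × ℕ × ℕ) × (ℤ × ℤ × ℤ) × (ℤ × ℤ × ℤ)) :=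
  [w 52 23 11 6 (-1) 1 (-5) 2 (-1),
   w 52 28 52 6 1 1 (-6) 0 0,
   w 9 11 43 5 5 (-2) (-1) (-2) 3,
   w 9 10 50 5 5 2 (-1) (-4) 1,
   w 9 24 33 5 5 2 (-1) (-4) (-1),
   w 9 16 4 5 5 2 (-2) (-4) 0,
   w 9 32 16 5 5 2 (-4) (-2) (-2),
   w 9 48 6 5 5 2 (-5) (-2) 1,
   w 9 18 38 5 5 2 (-5) (-2) (-1),
   w 44 24 39 5 5 0 (-1) (-4) 1,
   w 44 45 32 5 5 0 (-2) (-4) 0,
   w 44 4 43 5 5 0 (-4) (-2) 2,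
   w 44 18 27 5 5 0 (-5) (-2) 1,
   w 1 24 26 5 (-3) 2 (-1) 4 (-1),
   w 1 24 43 5 3 (-2) (-1) (-2) 3,
   w 1 16 41 5 (-3) 2 (-2) 4 0,
   w 1 21 25 5 3 (-2) (-3) 0 3,
   w 1 23 16 5 3 2 (-4) (-2) (-2),
   w 1 51 6 5 3 2 (-5) (-2) 1,
   w 1 28 38 5 3 2 (-5) (-2) (-1),
   w 6 11 35 5 1 4 (-1) 2 (-3),
   w 6 24 39 5 (-1) 4 (-1) 2 (-3),
   w 6 7 49 5 1 4 (-3) 0 (-3),
   w 6 4 26 5 1 4 (-4) 2 (-2),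
   w 6 49 33 5 (-1) 4 (-4) 2 (-2)]

/-- part of the list of relations -/
def W4 : List ((ℕ × ℕ × ℕ) × (ℤ × ℤ × ℤ) × (ℤ × ℤ × ℤ)) :=
  [w 27 24 50 5 (-1) (-2) (-1) 2 3,
   w 27 7 14 5 1 (-2) (-3) 0 3,
   w 27 32 35 5 1 2 (-4) 2 (-2),
   w 27 23 39 5 (-1) 2 (-4) 2 (-2),
   w 38 49 50 5 (-1) 0 (-4) 2 2,
   w 19 39 17 4 5 (-1) (-1) (-2) 3,
   w 19 16 22 4 5 1 (-1) (-4) 1,
   w 19 45 21 4 5 1 (-1) (-4) (-1),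
   w 19 7 18 4 5 1 (-2) (-4) 0,
   w 19 18 10 4 5 (-1) (-4) (-2) 2,
   w 42 16 36 4 (-3) 3 (-1) 4 (-1),
   w 42 45 8 4 3 3 (-1) (-2) (-3),
   w 42 8 12 4 (-3) 3 (-2) 4 0,
   w 42 32 22 4 3 3 (-3) 0 (-3),
   w 42 28 24 4 3 3 (-4) (-2) (-2),
   w 11 16 30 4 (-3) 1 (-1) 4 1,
   w 11 16 17 4 3 (-1) (-1) (-2) 3,
   w 11 45 36 4 (-3) 1 (-1) 4 (-1),
   w 11 7 0 4 (-3) 1 (-2) 4 0,
   w 11 28 10 4 3 (-1) (-4) (-2) 2,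
   w 10 33 30 4 1 3 (-1) 2 (-3),
   w 10 45 22 4 (-1) 3 (-1) 2 (-3),
   w 10 23 8 4 1 3 (-3) 0 (-3),
   w 24 49 17 4 1 (-1) (-3) 0 3,
   w 35 21 14 3 5 (-2) (-1) (-2) 3]

/-- part of the list of relations -/
def W5 : List ((ℕ × ℕ × ℕ) × (ℤ × ℤ × ℤ) × (ℤ × ℤ × ℤ)) :=
  [w 35 8 25 3 5 2 (-1) (-4) 1,
   w 35 7 32 3 5 2 (-1) (-4) (-1),
   w 35 49 4 3 5 2 (-2) (-4) 0,
   w 26 7 4 3 5 0 (-1) (-4) 1,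
   w 26 23 32 3 5 0 (-2) (-4) 0,
   w 50 8 41 3 (-3) 4 (-1) 4 (-1),
   w 50 7 49 3 3 4 (-1) (-2) (-3),
   w 50 18 39 3 3 4 (-3) 0 (-3),
   w 39 7 47 3 (-3) 2 (-1) 4 (-1),
   w 39 7 14 3 3 (-2) (-1) (-2) 3,
   w 39 49 41 3 (-3) 2 (-2) 4 0,
   w 33 7 41 3 (-3) 0 (-1) 4 1,
   w 33 23 47 3 (-3) 0 (-2) 4 0,
   w 43 21 41 3 1 4 (-1) 2 (-3),
   w 43 7 4 3 (-1) 4 (-1) 2 (-3),
   w 43 28 16 3 1 4 (-3) 0 (-3),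
   w 16 7 25 3 (-1) (-2) (-1) 2 3,
   w 30 32 51 2 5 3 (-1) (-2) (-3),
   w 30 49 18 2 5 3 (-1) (-4) (-1),
   w 30 51 22 2 5 3 (-2) (-4) 0,
   w 36 4 13 2 5 (-1) (-1) (-2) 3,
   w 36 49 48 2 5 1 (-1) (-4) 1,
   w 36 23 18 2 5 1 (-1) (-4) (-1),
   w 36 28 21 2 5 1 (-2) (-4) 0,
   w 22 49 0 2 (-3) 3 (-1) 4 (-1)]

/-- part of the list of relations -/
def W6 : List ((ℕ × ℕ × ℕ) × (ℤ × ℤ × ℤ) × (ℤ × ℤ × ℤ)) :=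
  [w 22 23 51 2 3 3 (-1) (-2) (-3),
   w 21 49 12 2 (-3) 1 (-1) 4 1,
   w 21 49 13 2 3 (-1) (-1) (-2) 3,
   w 21 23 0 2 (-3) 1 (-1) 4 (-1),
   w 17 4 0 2 1 5 (-1) 2 (-3),
   w 17 49 18 2 (-1) 5 (-1) 2 (-3),
   w 8 32 12 2 1 3 (-1) 2 (-3),
   w 8 23 48 2 (-1) 3 (-1) 2 (-3),
   w 41 18 14 1 5 (-2) (-1) (-2) 3,
   w 41 51 25 1 5 2 (-1) (-4) 1,
   w 41 28 32 1 5 2 (-1) (-4) (-1),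
   w 47 28 4 1 5 0 (-1) (-4) 1,
   w 25 28 49 1 3 4 (-1) (-2) (-3),
   w 4 28 14 1 3 (-2) (-1) (-2) 3]


/-- relations with witnesses `(x, y, z, a, b, e)` -/
def AW : List ((ℕ × ℕ × ℕ) × (ℤ × ℤ × ℤ) × (ℤ × ℤ × ℤ)) := W0 ++ (W1 ++ (W2 ++ (W3 ++ (W4 ++ (W5 ++ (W6))))))

/-- check of a witness -/
def chk (p : (ℕ × ℕ × ℕ) × (ℤ × ℤ × ℤ) × (ℤ × ℤ × ℤ)) : Bool :=
  let x := p.2.1.1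
  let y := p.2.1.2.1
  let z := p.2.1.2.2
  let a := p.2.2.1
  let b := p.2.2.2.1
  let e := p.2.2.2.2
  decide (a ^ 2 + 2 * b ^ 2 + 3 * e ^ 2 = 36) &&
  (decide (|x| ≤ 9) && decide (|y| ≤ 6) && decide (|z| ≤ 5)) &&
  (decide (|x + a| ≤ 9) && decide (|y + b| ≤ 6) && decide (|z + e| ≤ 5)) &&
  (decide (|x + 2 * a| ≤ 9) && decide (|y + 2 * b| ≤ 6) && decide (|z + 2 * e| ≤ 5)) &&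
  (decide (ptn (p.1.1 % 64) = (|x|, |y|, |z|)) &&
  decide (ptn (p.1.2.1 % 64) = (|x + a|, |y + b|, |z + e|)) &&
  decide (ptn (p.1.2.2 % 64) = (|x + 2 * a|, |y + 2 * b|, |z + 2 * e|)))

theorem AW_fst : A = AW.map Prod.fst := by decide +kernel

theorem AW_chk : AW.all chk = true := by decide +kernel

theorem noSign : NoSign := by
  intro c hs h2
  obtain ⟨l, hl, _⟩ := s1779 (fun i => c (ptn i).1 (ptn i).2.1 (ptn i).2.2) (by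
    intro t ht
    rw [AW_fst, List.mem_map] at ht
    obtain ⟨p, hp, rfl⟩ := ht
    have h3 := List.all_eq_true.mp AW_chk p hp
    simp only [chk, Bool.and_eq_true, decide_eq_true_eq] at h3
    obtain ⟨⟨⟨⟨h4, ⟨x1, x2⟩, x3⟩, ⟨y1, y2⟩, y3⟩, ⟨z1, z2⟩, z3⟩, ⟨p1, p2⟩, p3⟩ := h3
    have h5 := h2 p.2.1.1 p.2.1.2.1 p.2.1.2.2 _ _ _ h4
    rw [hs _ _ _ x1 x2 x3, hs _ _ _ y1 y2 y3, hs _ _ _ z1 z2 z3] at h5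
    simp only [p1, p2, p3]
    exact h5)
  simp at hl

end Pool.Agent.Helper50.Canon.CD
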